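import Pool.Agent.Run7.h621.T2.Fin2

/-!
# Fully residually free groups
-/

set_option autoImplicit false
set_option linter.unusedSectionVars false

namespace Pool.Agent.Run7.h621.T2

open Monoid Function

/-- A group is fully residually free if finitely many nontrivial elements stay nontrivial under a
suitable homomorphism to a free group. -/
def FullyResiduallyFree (S : Type) [Group S] : Prop :=
  ∀ X : Finset S, (∀ x ∈ X, x ≠ 1) → ∃ (α : Type) (φ : S →* FreeGroup α), ∀ x ∈ X, φ x ≠ 1

section free

variable {α : Type}

open Classical in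
/-- from a free group to a free product of cyclic groups -/
noncomputable def forth (T : Finset α) : FreeGroup α →* CoprodI (fun _ : T => Multiplicative ℤ) :=
  FreeGroup.lift fun a => if h : a ∈ T then
    CoprodI.of (M := fun _ : T => Multiplicative ℤ) (i := ⟨a, h⟩) (Multiplicative.ofAdd 1) else 1

/-- and back -/
def back (T : Finset α) : CoprodI (fun _ : T => Multiplicative ℤ) →* FreeGroup α :=
  CoprodI.lift fun a => zpowersHom (FreeGroup α) (FreeGroup.of (a : α))

theorem back_forth (y : FreeGroup α) :
    ∃ T0 : Finset α, ∀ T : Finset α, T0 ⊆ T → back T (forth T y) = y := by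
  classical
  induction y using FreeGroup.induction_on with
  | C1 => exact ⟨∅, fun T _ => by simp⟩
  | of a =>
    refine ⟨{a}, fun T hT => ?_⟩
    have ha : a ∈ T := hT (Finset.mem_singleton_self a)
    simp [back, forth, ha]
  | inv_of a ih =>
    obtain ⟨T0, h⟩ := ih
    exact ⟨T0, fun T hT => by rw [map_inv, map_inv, h T hT]⟩
  | mul x y hx hy =>
    obtain ⟨T1, h1⟩ := hx
    obtain ⟨T2, h2⟩ := hy
    refine ⟨T1 ∪ T2, fun T hT => ?_⟩
    rw [map_mul, map_mul, h1 T (Finset.union_subset_left hT), h2 T (Finset.union_subset_right hT)]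

/-- finitely many elements of a free group -/
theorem exists_forth (Y : Finset (FreeGroup α)) (hY : ∀ y ∈ Y, y ≠ 1) :
    ∃ T : Finset α, ∀ y ∈ Y, forth T y ≠ 1 := by
  classical
  choose T0 hT0 using back_forth (α := α)
  refine ⟨Y.biUnion T0, fun y hy h1 => hY y hy ?_⟩
  have := hT0 y (Y.biUnion T0) (Finset.subset_biUnion_of_mem T0 hy)
  rw [h1, map_one] at this
  exact this.symm

end free

/-- Finitely many nontrivial elements of a fully residually free group stay nontrivial in a free
product of finitely many infinite cyclic groups. -/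
theorem FullyResiduallyFree.exists_cyc {S : Type} [Group S] (hS : FullyResiduallyFree S)
    (X : Finset S) (hX : ∀ x ∈ X, x ≠ 1) :
    ∃ (τ : Type) (_ : Fintype τ) (φ : S →* CoprodI (fun _ : τ => Multiplicative ℤ)),
      ∀ x ∈ X, φ x ≠ 1 := by
  classical
  obtain ⟨α, φ, hφ⟩ := hS X hX
  obtain ⟨T, hT⟩ := exists_forth (X.image φ) (by
    intro y hy
    obtain ⟨x, hx, rfl⟩ := Finset.mem_image.mp hy
    exact hφ x hx)
  exact ⟨T, inferInstance, (forth T).comp φ, fun x hx => hT _ (Finset.mem_image_of_mem φ hx)⟩

/-- An element of a free product stays nontrivial if its letters do. -/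
theorem letters {ι : Type} {S : ι → Type} [∀ i, Group (S i)] (x : CoprodI S) (hx : x ≠ 1) :
    ∃ X : ∀ i, Finset (S i), (∀ i, ∀ s ∈ X i, s ≠ 1) ∧
      ∀ (T : ι → Type) (_ : ∀ i, Group (T i)) (f : ∀ i, S i →* T i),
        (∀ i, ∀ s ∈ X i, f i s ≠ 1) →
        CoprodI.lift (fun i => (CoprodI.of (M := T)).comp (f i)) x ≠ 1 := by
  classical
  obtain ⟨w, rfl⟩ := CoprodI.Word.equiv.symm.surjective x
  change w.prod ≠ 1 at hx
  refine ⟨fun i => (w.toList.filterMap fun z => if h : z.1 = i then some (h ▸ z.2) else none).toFinset,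
    ?_, ?_⟩
  · intro i s hs
    rw [List.mem_toFinset, List.mem_filterMap] at hs
    obtain ⟨⟨i', z⟩, hz, hzs⟩ := hs
    by_cases h : i' = i
    · subst h
      simp only [dite_true, Option.some.injEq] at hzs
      rw [← hzs]
      exact w.ne_one _ hz
    · simp [h] at hzs
  · intro T _ f hf
    change CoprodI.lift _ w.prod ≠ 1
    have hlet : ∀ z ∈ w.toList, f z.1 z.2 ≠ 1 := by
      intro z hz
      apply hf z.1 z.2
      rw [List.mem_toFinset, List.mem_filterMap]
      exact ⟨z, hz, by simp⟩
    let w' : CoprodI.Word T :=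
      { toList := w.toList.map fun l => ⟨l.1, f l.1 l.2⟩
        ne_one := by
          intro l hl
          simp only [List.mem_map] at hl
          obtain ⟨l', hl', rfl⟩ := hl
          exact hlet l' hl'
        chain_ne := by
          rw [List.isChain_map]
          exact w.chain_ne }
    have e : CoprodI.lift (fun i => (CoprodI.of (M := T)).comp (f i)) w.prod = w'.prod := by
      simp only [CoprodI.Word.prod, w', map_list_prod, List.map_map]
      congr 1
    rw [e]
    intro h1
    have h2 : w' = CoprodI.Word.empty := by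
      apply CoprodI.Word.equiv.symm.injective
      change w'.prod = CoprodI.Word.empty.prod
      rw [h1, CoprodI.Word.prod_empty]
    apply hx
    have h3 : w = CoprodI.Word.empty := by
      apply CoprodI.Word.ext
      have := congrArg CoprodI.Word.toList h2
      simpa [w', CoprodI.Word.empty] using this
    rw [h3]
    exact CoprodI.Word.prod_empty

/-- The strong form of the Freiheitssatz: some `J ⊇ I`, `|I| = n - m`, and a homomorphism to a
group which kills the relators and the factors outside of `J`, is injective on the factors in `J`,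
and on the free product of the factors in `I`. -/
def Strong {n m : ℕ} (S : Fin n → Type) [∀ i, Group (S i)] (r : Fin m → CoprodI S) : Prop :=
  ∃ (K : Type) (_ : Group K) (f : ∀ i, S i →* K) (J I : Finset (Fin n)), I ⊆ J ∧
    I.card = n - m ∧ (∀ k, CoprodI.lift f (r k) = 1) ∧ (∀ i, i ∉ J → ∀ s, f i s = 1) ∧
    (∀ i ∈ J, Injective (f i)) ∧
    Injective (CoprodI.lift (M := fun i : I => S i) (fun i => f i))

theorem strong_cyc {n m : ℕ} (τ : Fin n → Type) [∀ i, Fintype (τ i)]
    (S : ∀ i, τ i → Type) [∀ i t, Group (S i t)]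
    (lam : ∀ i t, S i t → ℝ) (hlam : ∀ i t s s', lam i t (s * s') = lam i t s + lam i t s')
    (hlinj : ∀ i t, Injective (lam i t))
    (r : Fin m → CoprodI (fun i => CoprodI (S i))) : Strong (fun i => CoprodI (S i)) r := by
  classical
  let fl : CoprodI (fun i => CoprodI (S i)) →* CoprodI (fun z : Σ i, τ i => S z.1 z.2) :=
    CoprodI.lift fun i => CoprodI.lift fun t =>
      (CoprodI.of (M := fun z : Σ i, τ i => S z.1 z.2) (i := ⟨i, t⟩))
  obtain ⟨N, J, I, hN, hrN, hIJ, hIc, htriv, hJ, hI⟩ := select
    (S := fun z : Σ i, τ i => S z.1 z.2) (r := fun k => fl (r k))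
    (fun z => lam z.1 z.2) (fun z => hlam z.1 z.2) (fun z => hlinj z.1 z.2) (n := n) Sigma.fst
  let f : ∀ i, CoprodI (S i) →* (CoprodI (fun z : Σ i, τ i => S z.1 z.2) ⧸ N) := fun i =>
    CoprodI.lift fun t => (QuotientGroup.mk' N).comp
      (CoprodI.of (M := fun z : Σ i, τ i => S z.1 z.2) (i := ⟨i, t⟩))
  have hf : CoprodI.lift f = (QuotientGroup.mk' N).comp fl := by
    apply CoprodI.ext_hom
    intro i
    apply CoprodI.ext_hom
    intro t
    ext s
    simp [f, fl]
  have hfJ : ∀ i ∈ J, Injective (f i) := fun i hi =>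
    lists_inj N _ (hJ i hi) (fun t => (⟨i, t⟩ : Σ i, τ i)) sigma_mk_injective
      (fun t => by simp)
  have hfn : ∀ i, i ∉ J → ∀ s, f i s = 1 := by
    intro i hi s
    have : f i = 1 := by
      apply CoprodI.ext_hom
      intro t
      ext s
      simp only [f, MonoidHom.comp_apply, CoprodI.lift_of, MonoidHom.one_apply]
      rw [QuotientGroup.mk'_apply, QuotientGroup.eq_one_iff]
      exact htriv ⟨i, t⟩ hi s
    rw [this]; rfl
  have hinjI : Injective (CoprodI.lift (M := fun i : I => CoprodI (S i)) (fun i => f i)) := by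
    let Θ : CoprodI (fun i : I => CoprodI (S i)) →*
        CoprodI (fun a : Σ i : I, τ i => S a.1 a.2) :=
      CoprodI.lift fun i => CoprodI.lift fun t =>
        (CoprodI.of (M := fun a : Σ i : I, τ i => S a.1 a.2) (i := ⟨i, t⟩))
    let Θ' : CoprodI (fun a : Σ i : I, τ i => S a.1 a.2) →*
        CoprodI (fun i : I => CoprodI (S i)) :=
      CoprodI.lift fun a => (CoprodI.of (M := fun i : I => CoprodI (S i)) (i := a.1)).comp
        (CoprodI.of (i := a.2))
    have hΘ : Θ'.comp Θ = MonoidHom.id _ := by
      apply CoprodI.ext_hom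
      intro i
      apply CoprodI.ext_hom
      intro t
      ext s
      simp [Θ, Θ']
    have hΘi : Injective Θ := by
      intro x y hxy
      have h1 := DFunLike.congr_fun hΘ x
      have h2 := DFunLike.congr_fun hΘ y
      simp only [MonoidHom.comp_apply, MonoidHom.id_apply] at h1 h2
      rw [← h1, ← h2, hxy]
    have h3 := lists_inj N _ hI (fun a : Σ i : I, τ i => (⟨a.1, a.2⟩ : Σ i, τ i))
      (by
        rintro ⟨⟨i, hi⟩, t⟩ ⟨⟨i', hi'⟩, t'⟩ h
        simp only [Sigma.mk.injEq] at h
        obtain ⟨h1, h2⟩ := h
        subst h1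
        simpa using h2)
      (fun a => by simp)
    have h4 : CoprodI.lift (M := fun i : I => CoprodI (S i)) (fun i => f i) =
        (CoprodI.lift (M := fun a : Σ i : I, τ i => S a.1 a.2)
          (fun a => (QuotientGroup.mk' N).comp
            (CoprodI.of (M := fun z : Σ i, τ i => S z.1 z.2) (i := ⟨a.1, a.2⟩)))).comp Θ := by
      apply CoprodI.ext_hom
      intro i
      apply CoprodI.ext_hom
      intro t
      ext s
      simp [Θ, f]
    rw [h4]
    exact h3.comp hΘi
  refine ⟨_, inferInstance, f, J, I, hIJ, hIc, ?_, hfn, hfJ, hinjI⟩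
  intro k
  rw [hf, MonoidHom.comp_apply, QuotientGroup.mk'_apply]
  exact (QuotientGroup.eq_one_iff _).mpr (hrN k)

/-- the relators together with the factors outside of `J` -/
def relJ {n m : ℕ} (S : Fin n → Type) [∀ i, Group (S i)] (r : Fin m → CoprodI S)
    (J : Finset (Fin n)) : Subgroup (CoprodI S) :=
  Subgroup.normalClosure (Set.range r ∪ {x | ∃ i, i ∉ J ∧ ∃ s : S i, x = CoprodI.of s})

instance {n m : ℕ} (S : Fin n → Type) [∀ i, Group (S i)] (r : Fin m → CoprodI S)
    (J : Finset (Fin n)) : (relJ S r J).Normal := Subgroup.normalClosure_normal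

theorem strong_resid {n m : ℕ} (S : Fin n → Type) [∀ i, Group (S i)]
    (hS : ∀ i, FullyResiduallyFree (S i)) (r : Fin m → CoprodI S) : Strong S r := by
  classical
  -- otherwise there are witnesses
  by_contra hcon
  have hwit : ∀ P : Finset (Fin n) × Finset (Fin n), ∃ X : ∀ i, Finset (S i),
      (∀ i, ∀ s ∈ X i, s ≠ 1) ∧ (P.2 ⊆ P.1 → P.2.card = n - m →
      ∀ (T : Fin n → Type) (_ : ∀ i, Group (T i)) (f : ∀ i, S i →* T i),
        (∀ i, ∀ s ∈ X i, f i s ≠ 1) →
        (∃ i ∈ P.1, ∃ s : S i, f i s ≠ 1 ∧ CoprodI.of s ∈ relJ S r P.1) ∨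
        (∃ x : CoprodI (fun i : P.2 => S i),
          CoprodI.lift (fun i : P.2 => (CoprodI.of (M := fun i : P.2 => T i)).comp (f i)) x ≠ 1 ∧
          CoprodI.lift (fun i : P.2 => CoprodI.of (M := S) (i := (i : Fin n))) x ∈
            relJ S r P.1)) := by
    rintro ⟨J, I⟩
    by_cases hIJ : I ⊆ J ∧ I.card = n - m
    · by_cases h1 : ∃ i ∈ J, ∃ s : S i, s ≠ 1 ∧ CoprodI.of s ∈ relJ S r J
      · obtain ⟨i, hi, s, hs, hs2⟩ := h1
        refine ⟨Function.update (fun _ => ∅) i {s}, ?_, fun _ _ T _ f hf => ?_⟩
        · intro i' s' hs'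
          by_cases h : i' = i
          · subst h
            simp at hs'
            rw [hs']; exact hs
          · simp [Function.update_of_ne h] at hs'
        · left
          exact ⟨i, hi, s, hf i s (by simp), hs2⟩
      · by_cases h2 : ∃ x : CoprodI (fun i : I => S i), x ≠ 1 ∧
          CoprodI.lift (fun i : I => CoprodI.of (M := S) (i := (i : Fin n))) x ∈ relJ S r J
        · obtain ⟨x, hx, hx2⟩ := h2
          obtain ⟨X, hX, hX2⟩ := letters x hx
          refine ⟨fun i => if h : i ∈ I then X ⟨i, h⟩ else ∅, ?_, fun _ _ T _ f hf => ?_⟩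
          · intro i s hs
            by_cases h : i ∈ I
            · simp only [h, dite_true] at hs
              exact hX ⟨i, h⟩ s hs
            · simp [h] at hs
          · right
            refine ⟨x, hX2 (fun i : I => T i) (fun i => inferInstance) (fun i => f i) ?_, hx2⟩
            intro i s hs
            apply hf i s
            simp only [i.2, dite_true]
            exact hs
        · exfalso
          apply hcon
          push Not at h1 h2
          refine ⟨CoprodI S ⧸ relJ S r J, inferInstance,
            fun i => (QuotientGroup.mk' _).comp (CoprodI.of (i := i)), J, I, hIJ.1, hIJ.2, ?_, ?_,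
            ?_, ?_⟩
          · intro k
            have e : CoprodI.lift (fun i => (QuotientGroup.mk' (relJ S r J)).comp
                (CoprodI.of (M := S) (i := i))) = QuotientGroup.mk' (relJ S r J) := by
              apply CoprodI.ext_hom
              intro i
              ext s
              simp
            rw [e, QuotientGroup.mk'_apply, QuotientGroup.eq_one_iff]
            exact Subgroup.subset_normalClosure (Or.inl ⟨k, rfl⟩)
          · intro i hi s
            rw [MonoidHom.comp_apply, QuotientGroup.mk'_apply, QuotientGroup.eq_one_iff]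
            exact Subgroup.subset_normalClosure (Or.inr ⟨i, hi, s, rfl⟩)
          · intro i hi
            rw [injective_iff_map_eq_one]
            intro s hs
            rw [MonoidHom.comp_apply, QuotientGroup.mk'_apply, QuotientGroup.eq_one_iff] at hs
            by_contra hne
            exact h1 i hi s hne hs
          · rw [injective_iff_map_eq_one]
            intro x hx
            by_contra hne
            apply h2 x hne
            have e : CoprodI.lift (M := fun i : I => S i) (fun i : I =>
                (QuotientGroup.mk' (relJ S r J)).comp (CoprodI.of (M := S) (i := (i : Fin n)))) =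
                (QuotientGroup.mk' (relJ S r J)).comp
                (CoprodI.lift (fun i : I => CoprodI.of (M := S) (i := (i : Fin n)))) := by
              apply CoprodI.ext_hom
              intro i
              ext s
              simp
            rw [e, MonoidHom.comp_apply, QuotientGroup.mk'_apply, QuotientGroup.eq_one_iff] at hx
            exact hx
    · exact ⟨fun _ => ∅, by simp, fun h1 h2 => absurd ⟨h1, h2⟩ hIJ⟩
  choose X hX1 hX2 using hwit
  let XX : ∀ i, Finset (S i) := fun i => Finset.univ.biUnion fun P => X P i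
  have hex := fun i => (hS i).exists_cyc (XX i) (by
    intro s hs
    obtain ⟨P, _, hP⟩ := Finset.mem_biUnion.mp hs
    exact hX1 P i s hP)
  choose τ iτ φ hφ using hex
  obtain ⟨K, iK, f, J, I, hIJ, hIc, hr, htriv, hJ, hI⟩ := strong_cyc τ
    (fun _ _ => Multiplicative ℤ) (fun _ _ s => ((Multiplicative.toAdd s : ℤ) : ℝ))
    (fun _ _ s s' => by rw [toAdd_mul]; push_cast; ring)
    (fun _ _ s s' h => by
      apply Multiplicative.toAdd.injective
      beta_reduce at h
      exact_mod_cast h)
    (fun k => CoprodI.lift (fun i => (CoprodI.of (M := fun i =>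
      CoprodI (fun _ : τ i => Multiplicative ℤ))).comp (φ i)) (r k))
  -- the composition kills the relators and the factors outside of `J`
  have hle : relJ S r J ≤ (CoprodI.lift fun i => (f i).comp (φ i)).ker := by
    apply Subgroup.normalClosure_le_normal
    rintro x (⟨k, rfl⟩ | ⟨i, hi, s, rfl⟩)
    · have e : (CoprodI.lift f).comp (CoprodI.lift (fun i => (CoprodI.of (M := fun i =>
          CoprodI (fun _ : τ i => Multiplicative ℤ))).comp (φ i))) =
          CoprodI.lift fun i => (f i).comp (φ i) := by
        apply CoprodI.ext_hom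
        intro i
        ext s
        simp
      change CoprodI.lift (fun i => (f i).comp (φ i)) (r k) = 1
      rw [← e]
      exact hr k
    · change CoprodI.lift (fun i => (f i).comp (φ i)) (CoprodI.of s) = 1
      rw [CoprodI.lift_of]
      exact htriv i hi _
  rcases hX2 (J, I) hIJ hIc (fun i => CoprodI (fun _ : τ i => Multiplicative ℤ))
    (fun i => inferInstance) φ (fun i s hs => hφ i s (Finset.mem_biUnion.mpr
      ⟨(J, I), Finset.mem_univ _, hs⟩)) with ⟨i, hi, s, hs, hs2⟩ | ⟨x, hx, hx2⟩
  · apply hs
    have h1 := hle hs2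
    change CoprodI.lift (fun i => (f i).comp (φ i)) (CoprodI.of s) = 1 at h1
    rw [CoprodI.lift_of, MonoidHom.comp_apply] at h1
    exact hJ i hi (h1.trans (map_one _).symm)
  · apply hx
    have h1 := hle hx2
    change CoprodI.lift (fun i => (f i).comp (φ i)) (CoprodI.lift _ x) = 1 at h1
    apply hI
    rw [map_one, ← h1, ← MonoidHom.comp_apply, ← MonoidHom.comp_apply]
    congr 1
    apply CoprodI.ext_hom
    intro i
    ext s
    simp

/-- **Main theorem**: fully residually free syllable groups. -/
theorem main_resid {n m : ℕ} (A : Fin n → Type) [∀ i, Group (A i)]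
    (S : Fin n → Type) [∀ i, Group (S i)] (hS : ∀ i, FullyResiduallyFree (S i))
    (j : ∀ i, S i →* A i) (hj : ∀ i, Injective (j i)) (r : Fin m → CoprodI S) :
    ∃ T : Finset (Fin n), T.card = n - m ∧
      Injective ((QuotientGroup.mk' (Subgroup.normalClosure (Set.range fun t =>
        CoprodI.lift (fun i => (CoprodI.of (M := A)).comp (j i)) (r t)))).comp
        (CoprodI.lift (M := fun i : T => A i) (fun i => CoprodI.of (i := (i : Fin n))))) := by
  classical
  obtain ⟨K, iK, f, J, I, hIJ, hIc, hr, htriv, hJ, hI⟩ := strong_resid S hS r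
  obtain ⟨P, iP, h, a, _, ha, hinj⟩ := glue A S j hj f (by
      intro i
      by_cases hi : i ∈ J
      · exact Or.inl (hJ i hi)
      · exact Or.inr (htriv i hi)) I hI
  refine ⟨I, hIc, concl A _ (CoprodI.lift a) ?_ I ?_⟩
  · intro t
    have e : (CoprodI.lift a).comp (CoprodI.lift (fun i => (CoprodI.of (M := A)).comp (j i))) =
        h.comp (CoprodI.lift f) := by
      apply CoprodI.ext_hom
      intro i
      refine MonoidHom.ext fun s => ?_
      simp only [MonoidHom.comp_apply, CoprodI.lift_of]
      exact ha i s
    have := DFunLike.congr_fun e (r t)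
    rw [MonoidHom.comp_apply, MonoidHom.comp_apply] at this
    rw [this, hr, map_one]
  · convert hinj using 3
    ext i x
    simp

end Pool.Agent.Run7.h621.T2
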