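import Pool.Agent.Run7.h621.AffV

/-!
# Følner sets
-/

set_option autoImplicit false
set_option linter.unusedSectionVars false

namespace Pool.Agent.Run7.h621.T2

open scoped Pointwise

/-- The Følner condition. -/
def Amen (Q : Type) [Group Q] : Prop :=
  ∀ (X : Finset Q) (ε : ℝ), 0 < ε → ∃ Φ : Finset Q, Φ.Nonempty ∧
    ∃ Ψ : Finset Q, (∀ a ∈ Φ, ∀ x ∈ X, a * x ∈ Ψ) ∧ (Ψ.card : ℝ) ≤ (1 + ε) * Φ.card

theorem amen_unique (Q : Type) [Group Q] [Subsingleton Q] : Amen Q := by
  intro X ε hε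
  refine ⟨{1}, ⟨1, by simp⟩, {1}, fun a _ x _ => by simp [Subsingleton.elim (a * x) 1], ?_⟩
  simp
  exact hε.le

/-- The Følner condition for commutative groups, written additively. -/
theorem amen_add (V : Type) [AddCommGroup V] (Z : Finset V) (ε : ℝ) (hε : 0 < ε) :
    ∃ Φ : Finset V, Φ.Nonempty ∧
      ∃ Ψ : Finset V, (∀ a ∈ Φ, ∀ z ∈ Z, a + z ∈ Ψ) ∧ (Ψ.card : ℝ) ≤ (1 + ε) * Φ.card := by
  classical
  -- boxes
  let B : ℕ → Finset V := fun N =>
    (Fintype.piFinset (fun _ : Z => Finset.range (N + 1))).image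
      (fun f => ∑ z : Z, f z • (z : V))
  have hcard : ∀ N, (B N).card ≤ (N + 1) ^ Z.card := by
    intro N
    refine Finset.card_image_le.trans ?_
    rw [Fintype.card_piFinset]
    simp
  have hne : ∀ N, (B N).Nonempty := by
    intro N
    refine Finset.Nonempty.image ?_ _
    exact ⟨fun _ => 0, by simp⟩
  have hadd : ∀ N, ∀ a ∈ B N, ∀ z ∈ Z, a + z ∈ B (N + 1) := by
    intro N a ha z hz
    obtain ⟨f, hf, rfl⟩ := Finset.mem_image.mp ha
    rw [Fintype.mem_piFinset] at hf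
    refine Finset.mem_image.mpr ⟨f + Pi.single ⟨z, hz⟩ 1, ?_, ?_⟩
    · rw [Fintype.mem_piFinset]
      intro y
      have := hf y
      rw [Finset.mem_range] at this ⊢
      by_cases hy : y = ⟨z, hz⟩
      · subst hy
        simp only [Pi.add_apply, Pi.single_eq_same]
        omega
      · simp only [Pi.add_apply, Pi.single_eq_of_ne hy]
        omega
    · simp only [Pi.add_apply, add_smul, Finset.sum_add_distrib]
      congr 1
      rw [Finset.sum_eq_single (⟨z, hz⟩ : Z)]
      · simp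
      · intro y _ hy
        simp [Pi.single_eq_of_ne hy]
      · intro h
        exact absurd (Finset.mem_univ _) h
  by_contra hcon
  push Not at hcon
  have hgrow : ∀ N, (1 + ε) * ((B N).card : ℝ) < ((B (N + 1)).card : ℝ) := by
    intro N
    exact hcon (B N) (hne N) (B (N + 1)) (hadd N)
  have hexp : ∀ N, (1 + ε) ^ N ≤ ((B N).card : ℝ) := by
    intro N
    induction N with
    | zero =>
      simp only [pow_zero]
      exact_mod_cast (hne 0).card_pos
    | succ N ih =>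
      rw [pow_succ, mul_comm]
      have h1 : (1 + ε) * (1 + ε) ^ N ≤ (1 + ε) * ((B N).card : ℝ) :=
        mul_le_mul_of_nonneg_left ih (by linarith)
      exact h1.trans (hgrow N).le
  have hlim := tendsto_pow_const_div_const_pow_of_one_lt Z.card (r := 1 + ε) (by linarith)
  have hlim2 : Filter.Tendsto (fun N : ℕ => (((N + 1 : ℕ) : ℝ) ^ Z.card / (1 + ε) ^ (N + 1)))
      Filter.atTop (nhds 0) := hlim.comp (Filter.tendsto_add_atTop_nat 1)
  have hev := hlim2.eventually (gt_mem_nhds (show (0 : ℝ) < 1 / (1 + ε) by positivity))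
  obtain ⟨N, hN⟩ := hev.exists
  have h1 : (1 + ε) ^ N ≤ ((N + 1 : ℕ) : ℝ) ^ Z.card := by
    refine (hexp N).trans ?_
    exact_mod_cast hcard N
  have hpos : (0 : ℝ) < (1 + ε) ^ (N + 1) := by positivity
  rw [div_lt_div_iff₀ hpos (by linarith), one_mul, pow_succ] at hN
  have h2 : (0 : ℝ) < 1 + ε := by linarith
  nlinarith

theorem amen_affV (V G : Type) [AddCommGroup V] [Group G] [DistribMulAction G V] (hG : Amen G) :
    Amen (AffV V G) := by
  classical
  intro X ε hε
  obtain ⟨δ, hδ, hδ2⟩ : ∃ δ : ℝ, 0 < δ ∧ (1 + δ) * (1 + δ) ≤ 1 + ε := by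
    refine ⟨min 1 (ε / 3), by positivity, ?_⟩
    have h1 := min_le_left (1 : ℝ) (ε / 3)
    have h2 := min_le_right (1 : ℝ) (ε / 3)
    have h3 : 0 < min (1 : ℝ) (ε / 3) := by positivity
    nlinarith
  obtain ⟨P, hP, P', hPP, hPc⟩ := hG (X.image AffV.g) δ hδ
  obtain ⟨R, hR, R', hRR, hRc⟩ := amen_add V ((P ×ˢ X).image fun z => z.1 • z.2.v) δ hδ
  refine ⟨(R ×ˢ P).image fun z => ⟨z.1, z.2⟩, ?_, (R' ×ˢ P').image fun z => ⟨z.1, z.2⟩, ?_, ?_⟩
  · exact (hR.product hP).image _
  · intro a ha x hx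
    obtain ⟨⟨v, g⟩, hvg, rfl⟩ := Finset.mem_image.mp ha
    rw [Finset.mem_product] at hvg
    refine Finset.mem_image.mpr ⟨(v + g • x.v, g * x.g), ?_, ?_⟩
    · rw [Finset.mem_product]
      refine ⟨hRR v hvg.1 _ (Finset.mem_image.mpr ⟨(g, x), ?_, rfl⟩),
        hPP g hvg.2 _ (Finset.mem_image.mpr ⟨x, hx, rfl⟩)⟩
      exact Finset.mem_product.mpr ⟨hvg.2, hx⟩
    · rfl
  · have e1 : ((R ×ˢ P).image fun z => (⟨z.1, z.2⟩ : AffV V G)).card = R.card * P.card := by
      rw [Finset.card_image_of_injective, Finset.card_product]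
      rintro ⟨a, b⟩ ⟨c, d⟩ h
      simp only [AffV.mk.injEq] at h
      rw [h.1, h.2]
    have e2 : ((R' ×ˢ P').image fun z => (⟨z.1, z.2⟩ : AffV V G)).card ≤ R'.card * P'.card := by
      refine Finset.card_image_le.trans ?_
      rw [Finset.card_product]
    rw [e1]
    calc ((((R' ×ˢ P').image fun z => (⟨z.1, z.2⟩ : AffV V G)).card : ℕ) : ℝ)
        ≤ (R'.card : ℝ) * P'.card := by exact_mod_cast e2
      _ ≤ ((1 + δ) * R.card) * ((1 + δ) * P.card) := by
          apply mul_le_mul hRc hPc (by positivity) (by positivity)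
      _ = ((1 + δ) * (1 + δ)) * (R.card * P.card) := by ring
      _ ≤ (1 + ε) * (R.card * P.card) := by
          apply mul_le_mul_of_nonneg_right hδ2 (by positivity)
      _ = (1 + ε) * ((R.card * P.card : ℕ) : ℝ) := by push_cast; ring

end Pool.Agent.Run7.h621.T2
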