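import Pool.Agent.Run7.h621.T2.Fin
import Pool.Agent.Run7.h621.T2.Amen

/-!
# Linear independence over the group algebra and over the division ring
-/

set_option autoImplicit false
set_option linter.unusedSectionVars false

namespace Pool.Agent.Run7.h621.T2

open Function

/-- Independence of the rows `w j`, `j ∈ T`, restricted to the columns in `C`, over `D`. -/
def IndD {D : Type} [Ring D] {m : ℕ} {ι : Type} (w : Fin m → ι → D) (T : Finset (Fin m))
    (C : Finset ι) : Prop :=
  ∀ a : Fin m → D, (∀ j, j ∉ T → a j = 0) → (∀ t ∈ C, ∑ j, a j * w j t = 0) → ∀ j, a j = 0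

/-- Independence over the group algebra. -/
def IndR {G : Type} [Group G] [LinearOrder G] [MulLeftMono G] [MulRightMono G] {m : ℕ} {ι : Type}
    (w : Fin m → ι → MN G) (T : Finset (Fin m)) (C : Finset ι) : Prop :=
  ∀ a : Fin m → MN G, (∀ j, FinS (a j)) → (∀ j, j ∉ T → a j = 0) →
    (∀ t ∈ C, ∑ j, a j * w j t = 0) → ∀ j, a j = 0

theorem IndD.indR {G : Type} [Group G] [LinearOrder G] [MulLeftMono G] [MulRightMono G] {m : ℕ}
    {ι : Type} {w : Fin m → ι → MN G} {T : Finset (Fin m)} {C : Finset ι} (h : IndD w T C) :
    IndR w T C := fun a _ h1 h2 => h a h1 h2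

theorem IndD.mono_left {D : Type} [Ring D] {m : ℕ} {ι : Type} {w : Fin m → ι → D}
    {T T' : Finset (Fin m)} {C : Finset ι} (h : IndD w T C) (hT : T' ⊆ T) : IndD w T' C :=
  fun a h1 h2 => h a (fun j hj => h1 j fun h => hj (hT h)) h2

theorem IndD.mono_right {D : Type} [Ring D] {m : ℕ} {ι : Type} {w : Fin m → ι → D}
    {T : Finset (Fin m)} {C C' : Finset ι} (h : IndD w T C) (hC : C ⊆ C') : IndD w T C' :=
  fun a h1 h2 => h a h1 (fun t ht => h2 t (hC ht))

theorem IndR.mono_left {G : Type} [Group G] [LinearOrder G] [MulLeftMono G] [MulRightMono G]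
    {m : ℕ} {ι : Type} {w : Fin m → ι → MN G}
    {T T' : Finset (Fin m)} {C : Finset ι} (h : IndR w T C) (hT : T' ⊆ T) : IndR w T' C :=
  fun a h0 h1 h2 => h a h0 (fun j hj => h1 j fun h => hj (hT h)) h2

/-- The vectors `∑ a j * w j` with the `w j`, `j ∈ T`, restricted to `C`. -/
def InSpan {D : Type} [Ring D] {m : ℕ} {ι : Type} (w : Fin m → ι → D) (T : Finset (Fin m))
    (C : Finset ι) (v : ι → D) : Prop :=
  ∃ a : Fin m → D, (∀ j, j ∉ T → a j = 0) ∧ (∀ t ∈ C, v t = ∑ j, a j * w j t) ∧
    ∀ t, t ∉ C → v t = 0

/-- As many columns as rows suffice to detect the vectors in the span. -/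
theorem cols {D : Type} [DivisionRing D] {m : ℕ} {ι : Type} [Fintype ι] [DecidableEq ι]
    (w : Fin m → ι → D) (T : Finset (Fin m)) (C : Finset ι) :
    ∃ P : Finset ι, P ⊆ C ∧ P.card ≤ T.card ∧
      ∀ v : ι → D, InSpan w T C v → (∀ t ∈ P, v t = 0) → ∀ t, v t = 0 := by
  classical
  let u : T → (ι → D) := fun j t => if t ∈ C then w j t else 0
  let W : Submodule D (ι → D) := Submodule.span D (Set.range u)
  have hW : Module.finrank D W ≤ T.card := by
    have := finrank_range_le_card (R := D) u
    simpa [W, Set.finrank] using this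
  have hQ : Module.finrank D ((ι → D) ⧸ W) + Module.finrank D W = Fintype.card ι := by
    rw [Submodule.finrank_quotient_add_finrank]
    simp
  let e : ι → ((ι → D) ⧸ W) := fun i => W.mkQ (Pi.single i 1)
  have hspan : Submodule.span D (Set.range e) = ⊤ := by
    have h1 : Submodule.span D (Set.range fun i : ι => (Pi.single i 1 : ι → D)) = ⊤ := by
      have := (Pi.basisFun D ι).span_eq
      convert this using 2
      ext v
      simp
    have h2 : Set.range e = W.mkQ '' (Set.range fun i : ι => (Pi.single i 1 : ι → D)) := by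
      rw [← Set.range_comp]; rfl
    rw [h2, Submodule.span_image, h1, Submodule.map_top, Submodule.range_mkQ]
  obtain ⟨κ, a, ha, hs, hli⟩ := exists_linearIndependent' D e
  have : Finite κ := Finite.of_injective a ha
  have : Fintype κ := Fintype.ofFinite κ
  have hb : Module.finrank D ((ι → D) ⧸ W) = Fintype.card κ := by
    have hs' : ⊤ ≤ Submodule.span D (Set.range (e ∘ a)) := by rw [hs, hspan]
    exact Module.finrank_eq_card_basis (Module.Basis.mk hli hs')
  have hcard : (Finset.univ.image a)ᶜ.card ≤ T.card := by
    rw [Finset.card_compl, Finset.card_image_of_injective _ ha, Finset.card_univ]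
    omega
  refine ⟨(Finset.univ.image a)ᶜ ∩ C, Finset.inter_subset_right,
    (Finset.card_le_card Finset.inter_subset_left).trans hcard, ?_⟩
  rintro v ⟨b, hb1, hb2, hb3⟩ hv
  have hvW : v ∈ W := by
    have e1 : v = ∑ j : T, b j • u j := by
      ext t
      rw [Finset.sum_apply]
      simp only [Pi.smul_apply, smul_eq_mul, u]
      by_cases ht : t ∈ C
      · rw [hb2 t ht]
        simp only [ht, if_true]
        rw [Finset.sum_coe_sort T (fun j => b j * w j t)]
        symm
        apply Finset.sum_subset (Finset.subset_univ _)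
        intro j _ hj
        rw [hb1 j hj, zero_mul]
      · rw [hb3 t ht]
        simp [ht]
    rw [e1]
    exact Submodule.sum_mem _ fun j _ => Submodule.smul_mem _ _ (Submodule.subset_span ⟨j, rfl⟩)
  have hsum : ∑ i, v i • e i = 0 := by
    have hq' : W.mkQ v = 0 := by
      rw [Submodule.mkQ_apply, Submodule.Quotient.mk_eq_zero]
      exact hvW
    rw [← hq']
    conv_rhs => rw [show v = ∑ i, v i • (Pi.single i 1 : ι → D) by
      ext j; simp [Finset.sum_apply, Pi.single_apply]]
    rw [map_sum]
    simp [e]
  have hvout : ∀ i, i ∉ Finset.univ.image a → v i = 0 := by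
    intro i hi
    by_cases hiC : i ∈ C
    · exact hv i (Finset.mem_inter.mpr ⟨Finset.mem_compl.mpr hi, hiC⟩)
    · exact hb3 i hiC
  have hsum2 : ∑ t : κ, v (a t) • (e ∘ a) t = 0 := by
    rw [← hsum]
    have : ∑ t : κ, v (a t) • (e ∘ a) t = ∑ i ∈ Finset.univ.image a, v i • e i := by
      rw [Finset.sum_image (fun x _ y _ h => ha h)]
      rfl
    rw [this]
    apply Finset.sum_subset (Finset.subset_univ _)
    intro i _ hi
    rw [hvout i hi, zero_smul]
  have hz := Fintype.linearIndependent_iff.mp hli (fun t => v (a t)) hsum2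
  intro i
  by_cases hi : i ∈ Finset.univ.image a
  · obtain ⟨t, _, ht⟩ := Finset.mem_image.mp hi
    rw [← ht]; exact hz t
  · exact hvout i hi

/-- The dimension count: more rows than columns give a relation over the group algebra. -/
theorem folner_count {G : Type} [Group G] [LinearOrder G] [MulLeftMono G] [MulRightMono G]
    (hG : Amen G) {m : ℕ} {ι : Type} (w : Fin m → ι → MN G) (hw : ∀ j t, FinS (w j t))
    (U : Finset (Fin m)) (P : Finset ι) (hPU : P.card < U.card) :
    ∃ b : Fin m → MN G, (∀ j, FinS (b j)) ∧ (∀ j, j ∉ U → b j = 0) ∧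
      (∀ t ∈ P, ∑ j, b j * w j t = 0) ∧ ∃ j, b j ≠ 0 := by
  classical
  let X : Finset G := Finset.univ.biUnion fun j => P.biUnion fun t => (hw j t).toFinset
  obtain ⟨Φ, hΦ, Ψ, hΨ, hcard⟩ := hG X (1 / (P.card + 1)) (by positivity)
  have hlt : P.card * Ψ.card < U.card * Φ.card := by
    have h1 : ((P.card * Ψ.card : ℕ) : ℝ) < ((U.card * Φ.card : ℕ) : ℝ) := by
      have hU : ((P.card : ℝ) + 1) ≤ U.card := by exact_mod_cast hPU
      have hΦ' : (0 : ℝ) < Φ.card := by exact_mod_cast hΦ.card_pos
      push_cast
      have h2 : (P.card : ℝ) * (1 + 1 / (P.card + 1)) < P.card + 1 := by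
        have h3 : (0 : ℝ) < (P.card : ℝ) + 1 := by positivity
        rw [mul_add, mul_one, mul_one_div]
        have : (P.card : ℝ) / (P.card + 1) < 1 := by
          rw [div_lt_one h3]; linarith
        linarith
      calc (P.card : ℝ) * Ψ.card ≤ P.card * ((1 + 1 / (P.card + 1)) * Φ.card) := by
            apply mul_le_mul_of_nonneg_left hcard (by positivity)
        _ = (P.card * (1 + 1 / (P.card + 1))) * Φ.card := by ring
        _ < (P.card + 1) * Φ.card := by
            apply mul_lt_mul_of_pos_right h2 hΦ'
        _ ≤ U.card * Φ.card := by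
            apply mul_le_mul_of_nonneg_right hU hΦ'.le
    exact_mod_cast h1
  let bb : (U × Φ → ℝ) → Fin m → MN G := fun x j =>
    if h : j ∈ U then ∑ g ∈ Φ, MN.single g (if hg : g ∈ Φ then x (⟨j, h⟩, ⟨g, hg⟩) else 0) else 0
  let L : (U × Φ → ℝ) →ₗ[ℝ] (P × Ψ → ℝ) :=
    { toFun := fun x z => ∑ q : U × Φ, x q * (w q.1 z.1).c ((q.2 : G)⁻¹ * z.2)
      map_add' := by
        intro x y
        funext z
        simp only [Pi.add_apply, add_mul, Finset.sum_add_distrib]
      map_smul' := by
        intro c x
        funext z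
        simp only [Pi.smul_apply, smul_eq_mul, RingHom.id_apply, Finset.mul_sum, mul_assoc] }
  have hker : LinearMap.ker L ≠ ⊥ := by
    apply LinearMap.ker_ne_bot_of_finrank_lt
    simp only [Module.finrank_fintype_fun_eq_card, Fintype.card_prod, Fintype.card_coe]
    exact hlt
  obtain ⟨x, hx, hx0⟩ := (Submodule.ne_bot_iff _).mp hker
  have hbc : ∀ (j : Fin m) (t : ι) (y : G), (bb x j * w j t).c y =
      if h : j ∈ U then ∑ g : Φ, x (⟨j, h⟩, g) * (w j t).c ((g : G)⁻¹ * y) else 0 := by
    intro j t y
    by_cases h : j ∈ U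
    · simp only [bb, h, dite_true]
      rw [sum_single_mul_c, ← Finset.sum_coe_sort Φ]
      refine Finset.sum_congr rfl fun g _ => ?_
      simp
    · simp only [bb, h, dite_false, zero_mul, MN.zero_c]
  have hsumc : ∀ (t : ι) (y : G), (∑ j, bb x j * w j t).c y =
      ∑ q : U × Φ, x q * (w q.1 t).c ((q.2 : G)⁻¹ * y) := by
    intro t y
    rw [sum_c, Fintype.sum_prod_type]
    rw [Finset.sum_coe_sort_eq_attach U]
    rw [← Finset.sum_subset (Finset.subset_univ U), ← Finset.sum_attach U]
    · refine Finset.sum_congr rfl fun j _ => ?_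
      rw [hbc, dif_pos j.2]
    · intro j _ hj
      rw [hbc, dif_neg hj]
  refine ⟨bb x, ?_, ?_, ?_, ?_⟩
  · intro j
    by_cases h : j ∈ U
    · simp only [bb, h, dite_true]
      exact FinS.sum _ _ fun _ _ => FinS.single _ _
    · simp only [bb, h, dite_false]
      exact FinS.zero
  · intro j hj
    simp only [bb, hj, dite_false]
  · intro t ht
    ext y
    rw [hsumc, MN.zero_c]
    by_cases hy : y ∈ Ψ
    · have := congrFun (LinearMap.mem_ker.mp hx) (⟨t, ht⟩, ⟨y, hy⟩)
      simpa [L] using this
    · apply Finset.sum_eq_zero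
      intro q _
      have : (w q.1 t).c ((q.2 : G)⁻¹ * y) = 0 := by
        by_contra hne
        apply hy
        have h1 := hΨ q.2 q.2.2 ((q.2 : G)⁻¹ * y) (by
          simp only [X, Finset.mem_biUnion]
          exact ⟨q.1, Finset.mem_univ _, t, ht, (hw q.1 t).mem_toFinset.mpr hne⟩)
        rwa [mul_inv_cancel_left] at h1
      rw [this, mul_zero]
  · by_contra hcon
    push Not at hcon
    apply hx0
    funext q
    have h1 := congrArg (fun f => MN.c f (q.2 : G)) (hcon q.1)
    simp only [bb, q.1.2, dite_true, MN.zero_c] at h1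
    rw [sum_c, Finset.sum_eq_single (q.2 : G)] at h1
    · simpa using h1
    · intro b _ hb
      exact MN.single_ne _ _ _ (Ne.symm hb)
    · intro h
      exact absurd q.2.2 h

/-- Independence over the group algebra of an amenable group implies independence over the
division ring. -/
theorem IndR.indD {G : Type} [Group G] [LinearOrder G] [MulLeftMono G] [MulRightMono G]
    (hG : Amen G) {m : ℕ} {ι : Type} [Fintype ι] [DecidableEq ι] (w : Fin m → ι → MN G)
    (hw : ∀ j t, FinS (w j t)) (T : Finset (Fin m)) (C : Finset ι) (h : IndR w T C) :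
    IndD w T C := by
  classical
  induction T using Finset.induction_on with
  | empty =>
    intro a ha _ j
    exact ha j (Finset.notMem_empty j)
  | insert j0 T hj0 ih =>
    have hT := ih (h.mono_left (Finset.subset_insert j0 T))
    intro a ha hsum
    by_cases ha0 : a j0 = 0
    · refine hT a (fun j hj => ?_) hsum
      by_cases hjj : j = j0
      · rw [hjj]; exact ha0
      · exact ha j (fun h => by
          rcases Finset.mem_insert.mp h with h | h
          · exact hjj h
          · exact hj h)
    · exfalso
      obtain ⟨P, hPC, hPc, hP⟩ := cols w T C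
      obtain ⟨b, hb1, hb2, hb3, j1, hj1⟩ := folner_count hG w hw (insert j0 T) P (by
        rw [Finset.card_insert_of_notMem hj0]; omega)
      -- the row `j0` is a combination of the others
      have hrow : ∀ t ∈ C, w j0 t = ∑ j, (if j ∈ T then -((a j0)⁻¹ * a j) else 0) * w j t := by
        intro t ht
        have h1 := hsum t ht
        have h2 : ∑ j, a j * w j t = a j0 * w j0 t + ∑ j ∈ T, a j * w j t := by
          rw [← Finset.sum_insert hj0 (f := fun j => a j * w j t)]
          symm
          apply Finset.sum_subset (Finset.subset_univ _)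
          intro j _ hj
          rw [ha j hj, zero_mul]
        rw [h2] at h1
        have h3 : w j0 t = -((a j0)⁻¹ * ∑ j ∈ T, a j * w j t) := by
          have h4 : a j0 * w j0 t = -∑ j ∈ T, a j * w j t := eq_neg_of_add_eq_zero_left h1
          calc w j0 t = (a j0)⁻¹ * (a j0 * w j0 t) := by
                rw [← mul_assoc, inv_mul_cancel₀ ha0, one_mul]
            _ = _ := by rw [h4, mul_neg]
        rw [h3, Finset.mul_sum, ← Finset.sum_neg_distrib]
        rw [← Finset.sum_subset (Finset.subset_univ T)]
        · refine Finset.sum_congr rfl fun j hj => ?_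
          rw [if_pos hj, neg_mul, mul_assoc]
        · intro j _ hj
          rw [if_neg hj, zero_mul]
      let v : ι → MN G := fun t => if t ∈ C then ∑ j, b j * w j t else 0
      have hv : InSpan w T C v := by
        refine ⟨fun j => if j ∈ T then b j + b j0 * -((a j0)⁻¹ * a j) else 0, ?_, ?_, ?_⟩
        · intro j hj; simp [hj]
        · intro t ht
          simp only [v, ht, if_true]
          have h2 : ∑ j, b j * w j t = b j0 * w j0 t + ∑ j ∈ T, b j * w j t := by
            rw [← Finset.sum_insert hj0 (f := fun j => b j * w j t)]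
            symm
            apply Finset.sum_subset (Finset.subset_univ _)
            intro j _ hj
            rw [hb2 j hj, zero_mul]
          rw [h2, hrow t ht, Finset.mul_sum]
          rw [← Finset.sum_subset (Finset.subset_univ T), ← Finset.sum_subset
            (Finset.subset_univ T) (f := fun x => (if x ∈ T then b x + b j0 * -((a j0)⁻¹ * a x)
              else 0) * w x t), ← Finset.sum_add_distrib]
          · refine Finset.sum_congr rfl fun j hj => ?_
            rw [if_pos hj, if_pos hj, add_mul, add_comm, mul_assoc (b j0)]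
          · intro j _ hj
            rw [if_neg hj, zero_mul]
          · intro j _ hj
            rw [if_neg hj, zero_mul, mul_zero]
        · intro t ht
          simp [v, ht]
      have hv0 := hP v hv (by
        intro t ht
        simp only [v, hPC ht, if_true]
        exact hb3 t ht)
      exact hj1 (h b hb1 hb2 (fun t ht => by
        have := hv0 t
        simpa [v, ht] using this) j1)

end Pool.Agent.Run7.h621.T2
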