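import Pool.Agent.Run7.h621.T2.Mom
import Pool.Agent.Run7.h621.T2.Trans

/-!
# Crossed homomorphisms on a free product
-/

set_option autoImplicit false
set_option linter.unusedSectionVars false

namespace Pool.Agent.Run7.h621.T2

open Monoid

section letters

variable {ι : Type} {S : ι → Type} [∀ i, Group (S i)]

/-- The product of a list of letters. -/
def pr (L : List (Σ i, S i)) : CoprodI S := (L.map fun z => CoprodI.of z.2).prod

@[simp] theorem pr_nil : pr (S := S) [] = 1 := rfl
@[simp] theorem pr_cons (z : Σ i, S i) (L : List (Σ i, S i)) :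
    pr (z :: L) = CoprodI.of z.2 * pr L := by simp [pr]
@[simp] theorem pr_append (L L' : List (Σ i, S i)) : pr (L ++ L') = pr L * pr L' := by
  simp [pr]

end letters

section crossed

variable {ι : Type} [DecidableEq ι] {S : ι → Type} [∀ i, Group (S i)]
  {G : Type} [Group G] [LinearOrder G] [MulLeftMono G] [MulRightMono G]
  (ψ : CoprodI S →* G) (c : ∀ i, S i → MN G)
  (hc : ∀ i s t, c i (s * t) = c i s + MN.sing (ψ (CoprodI.of s)) * c i t)

attribute [local instance] act

/-- The homomorphism given by the crossed homomorphism with components `c i`. -/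
noncomputable def Phi : CoprodI S →* AffV (ι → MN G) G :=
  CoprodI.lift fun i =>
    MonoidHom.mk' (fun s => (⟨Pi.single i (c i s), ψ (CoprodI.of s)⟩ : AffV (ι → MN G) G))
      (by
        intro s t
        apply AffV.ext
        · rw [AffV.mul_v]
          change Pi.single i (c i (s * t)) = Pi.single i (c i s) +
            (MN.sing (ψ (CoprodI.of s)) : MN G) • (Pi.single i (c i t) : ι → MN G)
          rw [hc, Pi.single_add]
          congr 1
          ext j : 1
          by_cases h : j = i
          · subst h; simp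
          · simp [Pi.single_eq_of_ne h]
        · simp)

theorem Phi_of (i : ι) (s : S i) :
    Phi ψ c hc (CoprodI.of s) = ⟨Pi.single i (c i s), ψ (CoprodI.of s)⟩ := by
  simp [Phi]

theorem Phi_g (x : CoprodI S) : (Phi ψ c hc x).g = ψ x := by
  have h : (AffV.toG (V := ι → MN G)).comp (Phi ψ c hc) = ψ := by
    apply CoprodI.ext_hom
    intro i
    ext s
    simp [Phi_of]
  have := DFunLike.congr_fun h x
  simpa using this

theorem Phi_mul_v (x y : CoprodI S) : (Phi ψ c hc (x * y)).v =
    (Phi ψ c hc x).v + MN.sing (ψ x) • (Phi ψ c hc y).v := by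
  rw [map_mul, AffV.mul_v]
  have : (Phi ψ c hc x).g • (Phi ψ c hc y).v = MN.sing (Phi ψ c hc x).g • (Phi ψ c hc y).v := rfl
  rw [this, Phi_g]

theorem Phi_mul_vt (x y : CoprodI S) (t : ι) : (Phi ψ c hc (x * y)).v t =
    (Phi ψ c hc x).v t + MN.sing (ψ x) * (Phi ψ c hc y).v t := by
  rw [Phi_mul_v]; rfl

theorem Phi_one_vt (t : ι) : (Phi ψ c hc 1).v t = 0 := by
  rw [map_one]; rfl

theorem Phi_of_same (t : ι) (s : S t) : (Phi ψ c hc (CoprodI.of s)).v t = c t s := by
  rw [Phi_of]; simp

theorem Phi_of_ne (i t : ι) (s : S i) (h : t ≠ i) : (Phi ψ c hc (CoprodI.of s)).v t = 0 := by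
  rw [Phi_of]
  exact Pi.single_eq_of_ne h _

theorem Phi_fin (hfin : ∀ i s, FinS (c i s)) (x : CoprodI S) (t : ι) :
    FinS ((Phi ψ c hc x).v t) := by
  induction x using CoprodI.induction_on with
  | one => rw [Phi_one_vt]; exact FinS.zero
  | of i s =>
    by_cases h : t = i
    · subst h
      rw [Phi_of_same]; exact hfin _ _
    · rw [Phi_of_ne ψ c hc i t s h]; exact FinS.zero
  | mul x y hx hy =>
    rw [Phi_mul_vt]
    exact hx.add ((FinS.sing _).mul hy)

/-- letters outside `I` do not occur: zero coordinates -/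
theorem Phi_supp (I : Finset ι) (L : List (Σ i, S i)) (hL : ∀ z ∈ L, z.1 ∈ I)
    (i : ι) (hi : i ∉ I) : (Phi ψ c hc (pr L)).v i = 0 := by
  induction L with
  | nil => simp
  | cons z L ih =>
    rw [pr_cons, Phi_mul_vt, ih (fun z hz => hL z (List.mem_cons_of_mem _ hz)), mul_zero,
      add_zero, Phi_of_ne]
    intro h
    exact hi (h ▸ hL z List.mem_cons_self)

/-- The key coefficient. -/
theorem Phi_coef (x : Σ i, S i) (L : List (Σ i, S i))
    (hlet : ∀ z ∈ x :: L, c z.1 z.2 = MN.sing (ψ (CoprodI.of z.2)) - 1)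
    (hini : ∀ L' L'' : List (Σ i, S i), L = L' ++ L'' → ψ (pr (x :: L')) ≠ 1) :
    ((Phi ψ c hc (pr (x :: L))).v x.1).c 1 = -1 := by
  induction L using List.reverseRecOn with
  | nil =>
    have h1 : ψ (CoprodI.of x.2) ≠ 1 := by
      have := hini [] [] rfl
      simpa using this
    rw [pr_cons, pr_nil, mul_one, Phi_of_same]
    rw [hlet x List.mem_cons_self, MN.sub_c, MN.sing_c_one _ h1, MN.one_c_one, zero_sub]
  | append_singleton L z ih =>
    have e : pr (x :: (L ++ [z])) = pr (x :: L) * CoprodI.of z.2 := by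
      rw [← List.cons_append, pr_append, pr_cons z, pr_nil, mul_one]
    have hp : ψ (pr (x :: L)) ≠ 1 := hini L [z] rfl
    have hpz : ψ (pr (x :: L)) * ψ (CoprodI.of z.2) ≠ 1 := by
      have := hini (L ++ [z]) [] (by simp)
      rwa [e, map_mul] at this
    rw [e, Phi_mul_vt, MN.add_c, ih
      (fun w hw => hlet w (by
        rcases List.mem_cons.mp hw with h | h
        · rw [h]; exact List.mem_cons_self
        · exact List.mem_cons_of_mem _ (List.mem_append_left _ h)))
      (fun L' L'' h => hini L' (L'' ++ [z]) (by rw [h, List.append_assoc]))]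
    by_cases h : z.1 = x.1
    · rw [← h, Phi_of_same, hlet z (by simp), mul_sub, mul_one, ← map_mul, MN.sub_c,
        MN.sing_c_one _ hp, MN.sing_c_one _ hpz, sub_zero, add_zero]
    · rw [Phi_of_ne ψ c hc z.1 x.1 z.2 (Ne.symm h), mul_zero, MN.zero_c, add_zero]

theorem Phi_coef' (x : Σ i, S i) (L : List (Σ i, S i)) (y : Σ i, S i) (hxy : y.1 ≠ x.1)
    (hlet : ∀ z ∈ x :: L, c z.1 z.2 = MN.sing (ψ (CoprodI.of z.2)) - 1)
    (hini : ∀ L' L'' : List (Σ i, S i), L = L' ++ L'' → ψ (pr (x :: L')) ≠ 1) :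
    (Phi ψ c hc (pr (x :: (L ++ [y])))).v x.1 ≠ 0 := by
  intro h0
  have e : pr (x :: (L ++ [y])) = pr (x :: L) * CoprodI.of y.2 := by
    rw [← List.cons_append, pr_append, pr_cons y, pr_nil, mul_one]
  rw [e, Phi_mul_vt, Phi_of_ne ψ c hc y.1 x.1 y.2 (Ne.symm hxy), mul_zero, add_zero] at h0
  have := Phi_coef ψ c hc x L hlet hini
  rw [h0, MN.zero_c] at this
  norm_num at this

end crossed

end Pool.Agent.Run7.h621.T2
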