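import Pool.Agent.Run7.h621.Step

/-!
# Series with finite support
-/

set_option autoImplicit false
set_option linter.unusedSectionVars false

namespace Pool.Agent.Run7.h621.T2

open Function

variable {G : Type} [Group G] [LinearOrder G]

/-- finite support -/
def FinS (f : MN G) : Prop := (Function.support f.c).Finite

theorem FinS.zero : FinS (0 : MN G) := by
  have : Function.support (0 : MN G).c = ∅ := by
    ext x; simp
  rw [FinS, this]; exact Set.finite_empty

theorem FinS.single (g : G) (r : ℝ) : FinS (MN.single g r) := by
  refine (Set.finite_singleton g).subset ?_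
  intro x hx
  rw [Function.mem_support] at hx
  by_contra h
  exact hx (MN.single_ne g x r h)

theorem FinS.add {f g : MN G} (hf : FinS f) (hg : FinS g) : FinS (f + g) :=
  (hf.union hg).subset (Function.support_add f.c g.c)

theorem FinS.neg {f : MN G} (hf : FinS f) : FinS (-f) := by
  have : Function.support (-f).c = Function.support f.c := Function.support_neg f.c
  rw [FinS, this]; exact hf

theorem FinS.sub {f g : MN G} (hf : FinS f) (hg : FinS g) : FinS (f - g) := by
  rw [sub_eq_add_neg]; exact hf.add hg.neg

theorem FinS.sum {α : Type} (s : Finset α) (f : α → MN G) (hf : ∀ a ∈ s, FinS (f a)) :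
    FinS (∑ a ∈ s, f a) := by
  classical
  induction s using Finset.induction_on with
  | empty => simp [FinS.zero]
  | insert a s ha ih =>
    rw [Finset.sum_insert ha]
    exact (hf a (Finset.mem_insert_self a s)).add
      (ih fun b hb => hf b (Finset.mem_insert_of_mem hb))

/-- coefficients of sums -/
theorem sum_c {α : Type} (s : Finset α) (f : α → MN G) (x : G) :
    (∑ a ∈ s, f a).c x = ∑ a ∈ s, (f a).c x := by
  classical
  induction s using Finset.induction_on with
  | empty => simp
  | insert a s ha ih => rw [Finset.sum_insert ha, Finset.sum_insert ha, MN.add_c, ih]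

variable [MulLeftMono G] [MulRightMono G]

theorem FinS.one : FinS (1 : MN G) := FinS.single 1 1

theorem FinS.mul {f g : MN G} (hf : FinS f) (hg : FinS g) : FinS (f * g) :=
  (Set.Finite.mul hf hg).subset (MN.supp_mul f g)

theorem FinS.sing (g : G) : FinS (MN.sing g : MN G) := FinS.single g 1

/-- every series with finite support is a sum of monomials -/
theorem FinS.eq_sum {f : MN G} (hf : FinS f) :
    f = ∑ g ∈ hf.toFinset, MN.single g (f.c g) := by
  classical
  ext x
  rw [sum_c]
  by_cases hx : x ∈ hf.toFinset
  · rw [Finset.sum_eq_single x, MN.single_same]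
    · intro b _ hb
      exact MN.single_ne _ _ _ (Ne.symm hb)
    · intro h; exact absurd hx h
  · rw [Finset.sum_eq_zero]
    · rw [Set.Finite.mem_toFinset, Function.mem_support, not_not] at hx
      exact hx
    · intro b hb
      refine MN.single_ne _ _ _ ?_
      rintro rfl
      exact hx hb

theorem FinS.ind {P : MN G → Prop} (h0 : P 0) (hs : ∀ g r, P (MN.single g r))
    (ha : ∀ f g, FinS f → FinS g → P f → P g → P (f + g)) (f : MN G) (hf : FinS f) : P f := by
  classical
  have key : ∀ s : Finset G, P (∑ g ∈ s, MN.single g (f.c g)) := by
    intro s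
    induction s using Finset.induction_on with
    | empty => simpa using h0
    | insert a s has ih =>
      rw [Finset.sum_insert has]
      exact ha _ _ (FinS.single _ _) (FinS.sum _ _ fun _ _ => FinS.single _ _) (hs _ _) ih
  rw [hf.eq_sum]
  exact key _

/-- the product with a sum of monomials on the left -/
theorem sum_single_mul_c (Φ : Finset G) (x : G → ℝ) (f : MN G) (y : G) :
    ((∑ g ∈ Φ, MN.single g (x g)) * f).c y = ∑ g ∈ Φ, x g * f.c (g⁻¹ * y) := by
  rw [Finset.sum_mul, sum_c]
  exact Finset.sum_congr rfl fun g _ => MN.single_mul_c g (x g) f y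

end Pool.Agent.Run7.h621.T2
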