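import Pool.Agent.Run7.h621.T2.Sel
import Pool.Agent.Run7.h621.Main

/-!
# The main theorem for free products of abelian groups
-/

set_option autoImplicit false
set_option linter.unusedSectionVars false

namespace Pool.Agent.Run7.h621.T2

open Monoid Function

theorem lists_inj {ι : Type} {S : ι → Type} [∀ i, Group (S i)] (N : Subgroup (CoprodI S))
    [N.Normal] (B : Finset ι) (h : Words B N) {α : Type} (e : α → ι) (he : Injective e)
    (heB : ∀ a, e a ∈ B) :
    Injective (CoprodI.lift (M := fun a => S (e a))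
      (fun a => (QuotientGroup.mk' N).comp (CoprodI.of (i := e a)))) := by
  classical
  rw [injective_iff_map_eq_one]
  intro x hx
  obtain ⟨w, rfl⟩ := CoprodI.Word.equiv.symm.surjective x
  change CoprodI.lift _ w.prod = 1 at hx
  by_contra hne
  change ¬ w.prod = 1 at hne
  let L : List (Σ i, S i) := w.toList.map fun z => ⟨e z.1, z.2⟩
  have e1 : CoprodI.lift (M := fun a => S (e a))
      (fun a => (QuotientGroup.mk' N).comp (CoprodI.of (i := e a))) w.prod =
      QuotientGroup.mk' N (pr L) := by
    simp only [CoprodI.Word.prod, pr, L, map_list_prod, List.map_map]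
    congr 1
  rw [e1, QuotientGroup.mk'_apply, QuotientGroup.eq_one_iff] at hx
  refine h L ?_ ?_ ?_ ?_ hx
  · intro h0
    apply hne
    have h1 : w.toList = [] := by simpa [L] using h0
    simp [CoprodI.Word.prod, h1]
  · intro z hz
    obtain ⟨z', hz', rfl⟩ := List.mem_map.mp hz
    exact w.ne_one z' hz'
  · intro z hz
    obtain ⟨z', hz', rfl⟩ := List.mem_map.mp hz
    exact heB z'.1
  · have := w.chain_ne
    rw [List.isChain_map]
    refine this.imp ?_
    intro a b hab h
    exact hab (he h)

theorem main_fin {n m : ℕ} (A : Fin n → Type) [∀ i, Group (A i)] (τ : Fin n → Type)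
    [∀ i, Fintype (τ i)] (S : ∀ i, τ i → Type) [∀ i t, Group (S i t)]
    (lam : ∀ i t, S i t → ℝ) (hlam : ∀ i t s s', lam i t (s * s') = lam i t s + lam i t s')
    (hlinj : ∀ i t, Injective (lam i t))
    (j : ∀ i, CoprodI (S i) →* A i) (hj : ∀ i, Injective (j i))
    (r : Fin m → CoprodI (fun i => CoprodI (S i))) :
    ∃ T : Finset (Fin n), T.card = n - m ∧
      Injective ((QuotientGroup.mk' (Subgroup.normalClosure (Set.range fun t =>
        CoprodI.lift (fun i => (CoprodI.of (M := A)).comp (j i)) (r t)))).comp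
        (CoprodI.lift (M := fun i : T => A i) (fun i => CoprodI.of (i := (i : Fin n))))) := by
  classical
  let fl : CoprodI (fun i => CoprodI (S i)) →* CoprodI (fun z : Σ i, τ i => S z.1 z.2) :=
    CoprodI.lift fun i => CoprodI.lift fun t =>
      (CoprodI.of (M := fun z : Σ i, τ i => S z.1 z.2) (i := ⟨i, t⟩))
  obtain ⟨N, J, I, hN, hrN, hIJ, hIc, htriv, hJ, hI⟩ := select
    (S := fun z : Σ i, τ i => S z.1 z.2) (r := fun k => fl (r k))
    (fun z => lam z.1 z.2) (fun z => hlam z.1 z.2) (fun z => hlinj z.1 z.2) (n := n) Sigma.fst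
  let f : ∀ i, CoprodI (S i) →* (CoprodI (fun z : Σ i, τ i => S z.1 z.2) ⧸ N) := fun i =>
    CoprodI.lift fun t => (QuotientGroup.mk' N).comp
      (CoprodI.of (M := fun z : Σ i, τ i => S z.1 z.2) (i := ⟨i, t⟩))
  have hf : CoprodI.lift f = (QuotientGroup.mk' N).comp fl := by
    apply CoprodI.ext_hom
    intro i
    apply CoprodI.ext_hom
    intro t
    ext s
    simp [f, fl]
  have hfJ : ∀ i ∈ J, Injective (f i) := fun i hi =>
    lists_inj N _ (hJ i hi) (fun t => (⟨i, t⟩ : Σ i, τ i)) sigma_mk_injective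
      (fun t => by simp)
  have hfn : ∀ i, i ∉ J → ∀ s, f i s = 1 := by
    intro i hi s
    have : f i = 1 := by
      apply CoprodI.ext_hom
      intro t
      ext s
      simp only [f, MonoidHom.comp_apply, CoprodI.lift_of, MonoidHom.one_apply]
      rw [QuotientGroup.mk'_apply, QuotientGroup.eq_one_iff]
      exact htriv ⟨i, t⟩ hi s
    rw [this]; rfl
  have hinjI : Injective (CoprodI.lift (M := fun i : I => CoprodI (S i)) (fun i => f i)) := by
    let Θ : CoprodI (fun i : I => CoprodI (S i)) →*
        CoprodI (fun a : Σ i : I, τ i => S a.1 a.2) :=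
      CoprodI.lift fun i => CoprodI.lift fun t =>
        (CoprodI.of (M := fun a : Σ i : I, τ i => S a.1 a.2) (i := ⟨i, t⟩))
    let Θ' : CoprodI (fun a : Σ i : I, τ i => S a.1 a.2) →*
        CoprodI (fun i : I => CoprodI (S i)) :=
      CoprodI.lift fun a => (CoprodI.of (M := fun i : I => CoprodI (S i)) (i := a.1)).comp
        (CoprodI.of (i := a.2))
    have hΘ : Θ'.comp Θ = MonoidHom.id _ := by
      apply CoprodI.ext_hom
      intro i
      apply CoprodI.ext_hom
      intro t
      ext s
      simp [Θ, Θ']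
    have hΘi : Injective Θ := by
      intro x y hxy
      have h1 := DFunLike.congr_fun hΘ x
      have h2 := DFunLike.congr_fun hΘ y
      simp only [MonoidHom.comp_apply, MonoidHom.id_apply] at h1 h2
      rw [← h1, ← h2, hxy]
    have h3 := lists_inj N _ hI (fun a : Σ i : I, τ i => (⟨a.1, a.2⟩ : Σ i, τ i))
      (by
        rintro ⟨⟨i, hi⟩, t⟩ ⟨⟨i', hi'⟩, t'⟩ h
        simp only [Sigma.mk.injEq] at h
        obtain ⟨h1, h2⟩ := h
        subst h1
        simpa using h2)
      (fun a => by simp)
    have h4 : CoprodI.lift (M := fun i : I => CoprodI (S i)) (fun i => f i) =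
        (CoprodI.lift (M := fun a : Σ i : I, τ i => S a.1 a.2)
          (fun a => (QuotientGroup.mk' N).comp
            (CoprodI.of (M := fun z : Σ i, τ i => S z.1 z.2) (i := ⟨a.1, a.2⟩)))).comp Θ := by
      apply CoprodI.ext_hom
      intro i
      apply CoprodI.ext_hom
      intro t
      ext s
      simp [Θ, f]
    rw [h4]
    exact h3.comp hΘi
  obtain ⟨P, iP, h, a, _, ha, hinj⟩ := glue A (fun i => CoprodI (S i)) j hj f (by
      intro i
      by_cases hi : i ∈ J
      · exact Or.inl (hfJ i hi)
      · exact Or.inr (hfn i hi)) I hinjI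
  refine ⟨I, hIc, concl A _ (CoprodI.lift a) ?_ I ?_⟩
  · intro t
    have e : (CoprodI.lift a).comp (CoprodI.lift (fun i => (CoprodI.of (M := A)).comp (j i))) =
        h.comp (CoprodI.lift f) := by
      apply CoprodI.ext_hom
      intro i
      refine MonoidHom.ext fun s => ?_
      simp only [MonoidHom.comp_apply, CoprodI.lift_of]
      exact ha i s
    have := DFunLike.congr_fun e (r t)
    rw [MonoidHom.comp_apply, MonoidHom.comp_apply] at this
    rw [this, hf, MonoidHom.comp_apply, QuotientGroup.mk'_apply,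
      (QuotientGroup.eq_one_iff _).mpr (hrN t), map_one]
  · convert hinj using 3
    ext i x
    simp

/-- subproducts of a free product -/
def innerInc {τ : Type} {S : τ → Type} [∀ t, Group (S t)] (T : Finset τ)
    (S' : ∀ t, Subgroup (S t)) : CoprodI (fun t : T => S' t) →* CoprodI S :=
  CoprodI.lift fun t => (CoprodI.of (i := (t : τ))).comp (S' t).subtype

theorem innerInc_of {τ : Type} {S : τ → Type} [∀ t, Group (S t)] (T : Finset τ)
    (S' : ∀ t, Subgroup (S t)) (t : T) (s : S' t) :
    innerInc T S' (CoprodI.of (M := fun t : T => S' t) (i := t) s) = CoprodI.of (s : S t) := by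
  simp [innerInc]

theorem innerInc_inj {τ : Type} {S : τ → Type} [∀ t, Group (S t)] (T : Finset τ)
    (S' : ∀ t, Subgroup (S t)) : Injective (innerInc T S') := by
  classical
  have h1 := coprod_map_inj (M := fun t : T => S' t) (N := fun t : T => S t)
    (fun t => (S' t).subtype) (fun t => Subtype.val_injective)
  let Θ : CoprodI (fun t : T => S t) →* CoprodI S :=
    CoprodI.lift fun t => (CoprodI.of (i := (t : τ)))
  let Θ' : CoprodI S →* CoprodI (fun t : T => S t) :=
    CoprodI.lift fun t => if h : t ∈ T then (CoprodI.of (M := fun t : T => S t) (i := ⟨t, h⟩))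
      else 1
  have hΘ : Θ'.comp Θ = MonoidHom.id _ := by
    apply CoprodI.ext_hom
    intro t
    ext s
    simp [Θ, Θ']
  have hΘi : Injective Θ := by
    intro x y hxy
    have h1 := DFunLike.congr_fun hΘ x
    have h2 := DFunLike.congr_fun hΘ y
    simp only [MonoidHom.comp_apply, MonoidHom.id_apply] at h1 h2
    rw [← h1, ← h2, hxy]
  have h4 : innerInc T S' = Θ.comp (CoprodI.lift fun t : T =>
      (CoprodI.of (M := fun t : T => S t)).comp (S' t).subtype) := by
    apply CoprodI.ext_hom
    intro t
    ext s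
    simp [Θ, innerInc]
  rw [h4]
  exact hΘi.comp h1

theorem inner_fg {τ : Type} {S : τ → Type} [∀ t, Group (S t)] (y : CoprodI S) :
    ∃ (T0 : Finset τ) (F0 : ∀ t, Finset (S t)), ∀ (T : Finset τ) (S' : ∀ t, Subgroup (S t)),
      T0 ⊆ T → (∀ t, ∀ a ∈ F0 t, a ∈ S' t) → y ∈ (innerInc T S').range := by
  classical
  induction y using CoprodI.induction_on with
  | one => exact ⟨∅, fun _ => ∅, fun T S' _ _ => one_mem _⟩
  | of t a =>
    refine ⟨{t}, Function.update (fun _ => ∅) t {a}, fun T S' hT hS => ?_⟩
    have ht : t ∈ T := hT (Finset.mem_singleton_self t)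
    refine ⟨CoprodI.of (M := fun t : T => S' t) (i := ⟨t, ht⟩) ⟨a, hS t a (by simp)⟩, ?_⟩
    rw [innerInc_of]
  | mul x y hx hy =>
    obtain ⟨T1, F1, h1⟩ := hx
    obtain ⟨T2, F2, h2⟩ := hy
    refine ⟨T1 ∪ T2, fun t => F1 t ∪ F2 t, fun T S' hT hS => mul_mem ?_ ?_⟩
    · exact h1 T S' (Finset.union_subset_left hT)
        (fun t a ha => hS t a (Finset.mem_union_left _ ha))
    · exact h2 T S' (Finset.union_subset_right hT)
        (fun t a ha => hS t a (Finset.mem_union_right _ ha))

/-- the same for all factors -/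
def outerInc {n : ℕ} {τ : Fin n → Type} {S : ∀ i, τ i → Type} [∀ i t, Group (S i t)]
    (T : ∀ i, Finset (τ i)) (S' : ∀ i t, Subgroup (S i t)) :
    CoprodI (fun i => CoprodI (fun t : T i => S' i t)) →* CoprodI (fun i => CoprodI (S i)) :=
  CoprodI.lift fun i => (CoprodI.of (M := fun i => CoprodI (S i)) (i := i)).comp
    (innerInc (T i) (S' i))

theorem outerInc_of {n : ℕ} {τ : Fin n → Type} {S : ∀ i, τ i → Type} [∀ i t, Group (S i t)]
    (T : ∀ i, Finset (τ i)) (S' : ∀ i t, Subgroup (S i t)) (i : Fin n)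
    (s : CoprodI (fun t : T i => S' i t)) :
    outerInc T S' (CoprodI.of (M := fun i => CoprodI (fun t : T i => S' i t)) (i := i) s) =
      CoprodI.of (M := fun i => CoprodI (S i)) (innerInc (T i) (S' i) s) := by
  simp [outerInc]

theorem outer_fg {n : ℕ} {τ : Fin n → Type} {S : ∀ i, τ i → Type} [∀ i t, Group (S i t)]
    (x : CoprodI (fun i => CoprodI (S i))) :
    ∃ (T0 : ∀ i, Finset (τ i)) (F0 : ∀ i t, Finset (S i t)),
      ∀ (T : ∀ i, Finset (τ i)) (S' : ∀ i t, Subgroup (S i t)),
      (∀ i, T0 i ⊆ T i) → (∀ i t, ∀ a ∈ F0 i t, a ∈ S' i t) → x ∈ (outerInc T S').range := by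
  classical
  induction x using CoprodI.induction_on with
  | one => exact ⟨fun _ => ∅, fun _ _ => ∅, fun T S' _ _ => one_mem _⟩
  | of i y =>
    obtain ⟨T0, F0, h⟩ := inner_fg y
    refine ⟨Function.update (fun _ => ∅) i T0, Function.update (fun _ _ => ∅) i F0,
      fun T S' hT hS => ?_⟩
    have h1 := hT i
    have h2 := hS i
    simp only [Function.update_self] at h1 h2
    obtain ⟨z, hz⟩ := h (T i) (S' i) h1 h2
    refine ⟨CoprodI.of (M := fun i => CoprodI (fun t : T i => S' i t)) (i := i) z, ?_⟩
    rw [outerInc_of, hz]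
  | mul x y hx hy =>
    obtain ⟨T1, F1, h1⟩ := hx
    obtain ⟨T2, F2, h2⟩ := hy
    refine ⟨fun i => T1 i ∪ T2 i, fun i t => F1 i t ∪ F2 i t, fun T S' hT hS => mul_mem ?_ ?_⟩
    · exact h1 T S' (fun i => Finset.union_subset_left (hT i))
        (fun i t a ha => hS i t a (Finset.mem_union_left _ ha))
    · exact h2 T S' (fun i => Finset.union_subset_right (hT i))
        (fun i t a ha => hS i t a (Finset.mem_union_right _ ha))

theorem main2 {n m : ℕ} (A : Fin n → Type) [∀ i, Group (A i)]
    (tf : ∀ i, ∀ g : A i, g ≠ 1 → ¬ IsOfFinOrder g) (τ : Fin n → Type)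
    (S : ∀ i, τ i → Type) [∀ i t, Group (S i t)]
    (hcomm : ∀ i t (s s' : S i t), s * s' = s' * s)
    (j : ∀ i, CoprodI (S i) →* A i) (hj : ∀ i, Injective (j i))
    (r : Fin m → CoprodI (fun i => CoprodI (S i))) :
    ∃ T : Finset (Fin n), T.card = n - m ∧
      Injective ((QuotientGroup.mk' (Subgroup.normalClosure (Set.range fun t =>
        CoprodI.lift (fun i => (CoprodI.of (M := A)).comp (j i)) (r t)))).comp
        (CoprodI.lift (M := fun i : T => A i) (fun i => CoprodI.of (i := (i : Fin n))))) := by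
  classical
  choose T0 F0 hTF using fun t => outer_fg (r t)
  let T : ∀ i, Finset (τ i) := fun i => Finset.univ.biUnion fun k => T0 k i
  let S' : ∀ i t, Subgroup (S i t) := fun i t =>
    Subgroup.closure ((Finset.univ.biUnion fun k => F0 k i t : Finset (S i t)) : Set (S i t))
  have hfg : ∀ i t, Group.FG (S' i t) := by
    intro i t
    rw [Group.fg_iff_subgroup_fg]
    exact ⟨_, rfl⟩
  have hr' : ∀ k, ∃ r' : CoprodI (fun i => CoprodI (fun t : T i => S' i t)),
      outerInc T S' r' = r k := by
    intro k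
    refine hTF k T S' (fun i => Finset.subset_biUnion_of_mem (fun k => T0 k i)
      (Finset.mem_univ k)) (fun i t a ha => Subgroup.subset_closure ?_)
    rw [Finset.mem_coe, Finset.mem_biUnion]
    exact ⟨k, Finset.mem_univ _, ha⟩
  choose r' hr' using hr'
  have hreal : ∀ i t, ∃ l : S' i t → ℝ, Injective l ∧ ∀ s s', l (s * s') = l s + l s' := by
    intro i t
    refine exists_real_embedding (S' i t) ?_ ?_ (hfg i t)
    · intro s s'
      apply Subtype.ext
      exact hcomm i t _ _
    · intro g hg hfin
      have hinj2 : Injective (fun s : S i t => j i (CoprodI.of s)) :=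
        (hj i).comp (CoprodI.of_injective t)
      apply tf i (j i (CoprodI.of (g : S i t)))
      · intro h1
        apply hg
        apply Subtype.ext
        apply hinj2
        change j i (CoprodI.of (g : S i t)) = j i (CoprodI.of (1 : S i t))
        rw [h1, map_one, map_one]
      · rw [isOfFinOrder_iff_pow_eq_one] at hfin ⊢
        obtain ⟨k, hk, hk2⟩ := hfin
        refine ⟨k, hk, ?_⟩
        rw [← map_pow, ← map_pow]
        have h2 : (g : S i t) ^ k = 1 := by
          have := congrArg (Subtype.val) hk2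
          simpa using this
        rw [h2, map_one, map_one]
  choose l hl1 hl2 using hreal
  obtain ⟨U, hU, hinj⟩ := main_fin A (fun i => T i) (fun i (t : T i) => S' i t)
    (fun i t => l i t) (fun i t => hl2 i t) (fun i t => hl1 i t)
    (fun i => (j i).comp (innerInc (T i) (S' i)))
    (fun i => (hj i).comp (innerInc_inj _ _)) r'
  refine ⟨U, hU, ?_⟩
  have e : (fun t => CoprodI.lift (fun i => (CoprodI.of (M := A)).comp
      ((j i).comp (innerInc (T i) (S' i)))) (r' t)) =
      fun t => CoprodI.lift (fun i => (CoprodI.of (M := A)).comp (j i)) (r t) := by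
    funext t
    rw [← hr']
    have e2 : CoprodI.lift (fun i => (CoprodI.of (M := A)).comp
      ((j i).comp (innerInc (T i) (S' i)))) =
        (CoprodI.lift (fun i => (CoprodI.of (M := A)).comp (j i))).comp (outerInc T S') := by
      apply CoprodI.ext_hom
      intro i
      ext s
      simp [outerInc_of]
    rw [e2, MonoidHom.comp_apply]
  rwa [e] at hinj

end Pool.Agent.Run7.h621.T2
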