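import Pool.Agent.Run7.h621.T2.Fin

/-!
# Moments of series with finite support on a semidirect product `V ⋊ G`
-/

set_option autoImplicit false
set_option linter.unusedSectionVars false

namespace Pool.Agent.Run7.h621.T2

open Function

section pair

variable {Q : Type} [Group Q] [LinearOrder Q]

/-- pairing of a series with finite support with a function -/
noncomputable def pair (φ : Q → ℝ) (f : MN Q) : ℝ := ∑ᶠ x, f.c x * φ x

theorem pair_fin {f : MN Q} (hf : FinS f) (φ : Q → ℝ) :
    (Function.support fun x => f.c x * φ x).Finite :=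
  hf.subset fun _ hx => left_ne_zero_of_mul hx

theorem pair_zero (φ : Q → ℝ) : pair φ 0 = 0 := by simp [pair]

theorem pair_add {f g : MN Q} (hf : FinS f) (hg : FinS g) (φ : Q → ℝ) :
    pair φ (f + g) = pair φ f + pair φ g := by
  rw [pair, pair, pair, ← finsum_add_distrib (pair_fin hf φ) (pair_fin hg φ)]
  exact finsum_congr fun x => by rw [MN.add_c, add_mul]

theorem pair_neg {f : MN Q} (φ : Q → ℝ) : pair φ (-f) = -pair φ f := by
  rw [pair, pair, ← finsum_neg_distrib]
  exact finsum_congr fun x => by rw [MN.neg_c, neg_mul]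

theorem pair_sub {f g : MN Q} (hf : FinS f) (hg : FinS g) (φ : Q → ℝ) :
    pair φ (f - g) = pair φ f - pair φ g := by
  rw [sub_eq_add_neg, pair_add hf hg.neg, pair_neg, sub_eq_add_neg]

theorem pair_sum {α : Type} (s : Finset α) (f : α → MN Q) (hf : ∀ a ∈ s, FinS (f a)) (φ : Q → ℝ) :
    pair φ (∑ a ∈ s, f a) = ∑ a ∈ s, pair φ (f a) := by
  classical
  induction s using Finset.induction_on with
  | empty => simp [pair_zero]
  | insert a s ha ih =>
    rw [Finset.sum_insert ha, Finset.sum_insert ha, pair_add (hf a (Finset.mem_insert_self a s))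
      (FinS.sum _ _ fun b hb => hf b (Finset.mem_insert_of_mem hb)),
      ih fun b hb => hf b (Finset.mem_insert_of_mem hb)]

theorem pair_single (g : Q) (r : ℝ) (φ : Q → ℝ) : pair φ (MN.single g r) = r * φ g := by
  rw [pair, finsum_eq_single _ g]
  · rw [MN.single_same]
  · intro x hx
    rw [MN.single_ne _ _ _ hx, zero_mul]

theorem pair_add_left {f : MN Q} (hf : FinS f) (φ ψ : Q → ℝ) :
    pair (fun x => φ x + ψ x) f = pair φ f + pair ψ f := by
  rw [pair, pair, pair, ← finsum_add_distrib (pair_fin hf φ) (pair_fin hf ψ)]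
  exact finsum_congr fun x => by rw [mul_add]

theorem pair_smul_left {f : MN Q} (c : ℝ) (φ : Q → ℝ) :
    pair (fun x => c * φ x) f = c * pair φ f := by
  rw [pair, pair, ← smul_eq_mul c, smul_finsum]
  exact finsum_congr fun x => by rw [smul_eq_mul]; ring

theorem pair_sum_left {α : Type} (s : Finset α) {f : MN Q} (hf : FinS f) (φ : α → Q → ℝ) :
    pair (fun x => ∑ a ∈ s, φ a x) f = ∑ a ∈ s, pair (φ a) f := by
  classical
  induction s using Finset.induction_on with
  | empty => simp [pair]
  | insert a s ha ih =>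
    rw [Finset.sum_insert ha, ← ih, ← pair_add_left hf]
    congr 1
    funext x
    rw [Finset.sum_insert ha]

theorem pair_congr {f : MN Q} {φ ψ : Q → ℝ} (h : ∀ x, f.c x ≠ 0 → φ x = ψ x) :
    pair φ f = pair ψ f := by
  refine finsum_congr fun x => ?_
  by_cases hx : f.c x = 0
  · rw [hx, zero_mul, zero_mul]
  · rw [h x hx]

variable [MulLeftMono Q] [MulRightMono Q]

theorem pair_single_mul (g : Q) (r : ℝ) (f : MN Q) (φ : Q → ℝ) :
    pair φ (MN.single g r * f) = r * pair (fun x => φ (g * x)) f := by
  rw [pair, pair, ← smul_eq_mul r, smul_finsum, ← finsum_comp_equiv (Equiv.mulLeft g)]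
  refine finsum_congr fun x => ?_
  rw [MN.single_mul_c, Equiv.coe_mulLeft, inv_mul_cancel_left, smul_eq_mul, mul_assoc]

end pair

section mom

variable {V G : Type} [AddCommGroup V] [LinearOrder V] [IsOrderedAddMonoid V]
  [Group G] [LinearOrder G] [MulLeftMono G] [MulRightMono G] [DistribMulAction G V]
  [MulLeftMono (AffV V G)]

open Classical in
/-- the moment of order `k` over the point `y` -/
noncomputable def mom (l : V → ℝ) (k : ℕ) (f : MN (AffV V G)) (y : G) : ℝ :=
  pair (fun x => if x.g = y then (l x.v) ^ k else 0) f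

theorem mom_zero (l : V → ℝ) (k : ℕ) (y : G) : mom l k (0 : MN (AffV V G)) y = 0 := pair_zero _

theorem mom_add {f g : MN (AffV V G)} (hf : FinS f) (hg : FinS g) (l : V → ℝ) (k : ℕ) (y : G) :
    mom l k (f + g) y = mom l k f y + mom l k g y := pair_add hf hg _

theorem mom_sub {f g : MN (AffV V G)} (hf : FinS f) (hg : FinS g) (l : V → ℝ) (k : ℕ) (y : G) :
    mom l k (f - g) y = mom l k f y - mom l k g y := pair_sub hf hg _

theorem mom_sum {α : Type} (s : Finset α) (f : α → MN (AffV V G)) (hf : ∀ a ∈ s, FinS (f a))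
    (l : V → ℝ) (k : ℕ) (y : G) : mom l k (∑ a ∈ s, f a) y = ∑ a ∈ s, mom l k (f a) y :=
  pair_sum s f hf _

open Classical in
theorem mom_single (l : V → ℝ) (k : ℕ) (x : AffV V G) (r : ℝ) (y : G) :
    mom l k (MN.single x r) y = if y = x.g then r * (l x.v) ^ k else 0 := by
  rw [mom, pair_single]
  by_cases h : y = x.g
  · subst h; simp
  · rw [if_neg h, if_neg (Ne.symm h), mul_zero]

/-- the projection of the support -/
theorem mom_support (f : MN (AffV V G)) (l : V → ℝ) (k : ℕ) :
    (Function.support (mom l k f)) ⊆ AffV.g '' (Function.support f.c) := by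
  intro y hy
  rw [Function.mem_support] at hy
  by_contra hne
  apply hy
  rw [mom, pair]
  apply finsum_eq_zero_of_forall_eq_zero
  intro x
  by_cases hx : f.c x = 0
  · rw [hx, zero_mul]
  · rw [if_neg, mul_zero]
    rintro rfl
    exact hne ⟨x, hx, rfl⟩

theorem mom_finite {f : MN (AffV V G)} (hf : FinS f) (l : V → ℝ) (k : ℕ) :
    (Function.support (mom l k f)).Finite :=
  (hf.image _).subset (mom_support f l k)

open Classical in
theorem mom_single_mul (l : V → ℝ) (hl : ∀ v w, l (v + w) = l v + l w) (k : ℕ) (x : AffV V G)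
    (r : ℝ) {f : MN (AffV V G)} (hf : FinS f) (y : G) :
    mom l k (MN.single x r * f) y = ∑ i ∈ Finset.range (k + 1),
      r * (l x.v) ^ i * (k.choose i : ℝ) *
        mom (fun v => l (x.g • v)) (k - i) f (x.g⁻¹ * y) := by
  rw [mom, pair_single_mul]
  have h1 : (fun z : AffV V G => if (x * z).g = y then (l (x * z).v) ^ k else 0) =
      fun z => ∑ i ∈ Finset.range (k + 1), ((l x.v) ^ i * (k.choose i : ℝ)) *
        (if z.g = x.g⁻¹ * y then (l (x.g • z.v)) ^ (k - i) else 0) := by
    funext z
    rw [AffV.mul_g, AffV.mul_v, hl]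
    by_cases h : z.g = x.g⁻¹ * y
    · have h' : x.g * z.g = y := by rw [h]; group
      rw [if_pos h', add_pow]
      refine Finset.sum_congr rfl fun i _ => ?_
      rw [if_pos h]; ring
    · have h' : x.g * z.g ≠ y := by
        intro h2
        apply h
        rw [← h2]; group
      rw [if_neg h']
      symm
      apply Finset.sum_eq_zero
      intro i _
      rw [if_neg h, mul_zero]
  rw [h1, pair_sum_left _ hf, Finset.mul_sum]
  refine Finset.sum_congr rfl fun i _ => ?_
  rw [pair_smul_left, mom]
  ring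

/-- The product formula. -/
theorem mom_mul (l : V → ℝ) (hl : ∀ v w, l (v + w) = l v + l w) (k : ℕ)
    {f g : MN (AffV V G)} (hf : FinS f) (hg : FinS g) (y : G) :
    mom l k (f * g) y = ∑ i ∈ Finset.range (k + 1), (k.choose i : ℝ) *
      ∑ᶠ h : G, mom l i f h * mom (fun v => l (h • v)) (k - i) g (h⁻¹ * y) := by
  classical
  refine FinS.ind (P := fun f => FinS f → mom l k (f * g) y =
    ∑ i ∈ Finset.range (k + 1), (k.choose i : ℝ) *
      ∑ᶠ h : G, mom l i f h * mom (fun v => l (h • v)) (k - i) g (h⁻¹ * y)) ?_ ?_ ?_ f hf hf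
  · intro _
    rw [zero_mul, mom_zero]
    symm
    apply Finset.sum_eq_zero
    intro i _
    simp [mom_zero]
  · intro x r _
    rw [mom_single_mul l hl k x r hg]
    refine Finset.sum_congr rfl fun i _ => ?_
    rw [finsum_eq_single _ x.g]
    · rw [mom_single, if_pos rfl]
      ring
    · intro h hh
      rw [mom_single, if_neg hh, zero_mul]
  · intro f1 f2 h1 h2 ih1 ih2 _
    rw [add_mul, mom_add (h1.mul hg) (h2.mul hg), ih1 h1, ih2 h2, ← Finset.sum_add_distrib]
    refine Finset.sum_congr rfl fun i _ => ?_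
    rw [← mul_add, ← finsum_add_distrib]
    · congr 1
      refine finsum_congr fun h => ?_
      rw [mom_add h1 h2]
      ring
    · exact (mom_finite h1 l i).subset fun h hh => left_ne_zero_of_mul hh
    · exact (mom_finite h2 l i).subset fun h hh => left_ne_zero_of_mul hh

/-- The moments as a series on `G`. -/
noncomputable def momS (l : V → ℝ) (k : ℕ) (f : MN (AffV V G)) (hf : FinS f) : MN G :=
  ⟨mom l k f, (mom_finite hf l k).isPWO⟩

theorem momS_fin (l : V → ℝ) (k : ℕ) (f : MN (AffV V G)) (hf : FinS f) :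
    FinS (momS l k f hf) := mom_finite hf l k

/-- lowest order, first case -/
theorem mom_mul_low (l : V → ℝ) (hl : ∀ v w, l (v + w) = l v + l w) (k : ℕ)
    {f g : MN (AffV V G)} (hf : FinS f) (hg : FinS g) (hlow : ∀ i < k, ∀ h, mom l i f h = 0)
    (u : MN G) (hu : ∀ (l' : V → ℝ) (y : G), mom l' 0 g y = u.c y) (y : G) :
    mom l k (f * g) y = (momS l k f hf * u).c y := by
  rw [mom_mul l hl k hf hg, Finset.sum_range_succ, Finset.sum_eq_zero]
  · rw [zero_add, Nat.choose_self, Nat.cast_one, one_mul, Nat.sub_self, MN.mul_c]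
    exact finsum_congr fun h => by rw [hu]; rfl
  · intro i hi
    rw [Finset.mem_range] at hi
    rw [finsum_eq_zero_of_forall_eq_zero, mul_zero]
    intro h
    rw [hlow i hi, zero_mul]

/-- lowest order, second case -/
theorem mom_mul_low' (l : V → ℝ) (hl : ∀ v w, l (v + w) = l v + l w) (k : ℕ)
    {f g : MN (AffV V G)} (hf : FinS f) (hg : FinS g) (hlow : ∀ i < k, ∀ h, mom l i f h = 0)
    (u : MN G) (z : V) (hu0 : ∀ (l' : V → ℝ) (y : G), mom l' 0 g y = 0)
    (hu : ∀ (h : G) (y : G), mom (fun v => l (h • v)) 1 g y = l (h • y • z) * u.c y) (y : G) :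
    mom l (k + 1) (f * g) y = (k + 1) * l (y • z) * (momS l k f hf * u).c y := by
  rw [mom_mul l hl (k + 1) hf hg, Finset.sum_range_succ, Finset.sum_range_succ,
    Finset.sum_eq_zero]
  · have h1 : ∑ᶠ h : G, mom l (k + 1) f h * mom (fun v => l (h • v)) (k + 1 - (k + 1)) g
        (h⁻¹ * y) = 0 := by
      apply finsum_eq_zero_of_forall_eq_zero
      intro h
      rw [Nat.sub_self, hu0, mul_zero]
    rw [h1, mul_zero, add_zero, zero_add, Nat.add_sub_cancel_left, MN.mul_c]
    have h2 : ((k + 1).choose k : ℝ) = k + 1 := by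
      rw [Nat.choose_succ_self_right]; push_cast; ring
    rw [h2, mul_assoc]
    congr 1
    rw [← smul_eq_mul, smul_finsum]
    refine finsum_congr fun h => ?_
    rw [hu h (h⁻¹ * y), ← mul_smul, mul_inv_cancel_left]
    simp only [smul_eq_mul, momS]
    ring
  · intro i hi
    rw [Finset.mem_range] at hi
    rw [finsum_eq_zero_of_forall_eq_zero, mul_zero]
    intro h
    rw [hlow i hi, zero_mul]

/-- A nonzero series with finite support has a nonzero moment, if the functional separates the
points of the support. -/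
theorem exists_mom_ne {f : MN (AffV V G)} (hf : FinS f) (hf0 : f ≠ 0) (l : V → ℝ)
    (hsep : ∀ x y : AffV V G, f.c x ≠ 0 → f.c y ≠ 0 → x.v ≠ y.v → l x.v ≠ l y.v) :
    ∃ k y, mom l k f y ≠ 0 := by
  classical
  have hex : ∃ x, f.c x ≠ 0 := by
    by_contra hcon
    push Not at hcon
    apply hf0
    ext x
    rw [hcon x, MN.zero_c]
  obtain ⟨x0, hx0⟩ := hex
  by_contra hcon
  push Not at hcon
  -- polynomials
  have hpoly : ∀ p : Polynomial ℝ,
      pair (fun x => if x.g = x0.g then p.eval (l x.v) else 0) f = 0 := by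
    intro p
    have h1 : (fun x : AffV V G => if x.g = x0.g then p.eval (l x.v) else 0) =
        fun x => ∑ k ∈ Finset.range (p.natDegree + 1), p.coeff k *
          (if x.g = x0.g then (l x.v) ^ k else 0) := by
      funext x
      by_cases h : x.g = x0.g
      · simp only [h, if_true]
        rw [Polynomial.eval_eq_sum_range]
      · simp [h]
    rw [h1, pair_sum_left _ hf]
    apply Finset.sum_eq_zero
    intro k _
    rw [pair_smul_left]
    have := hcon k x0.g
    rw [mom] at this
    rw [this, mul_zero]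
  let W : Finset (AffV V G) := hf.toFinset.filter fun x => x.v ≠ x0.v
  let p : Polynomial ℝ := ∏ x ∈ W, (Polynomial.X - Polynomial.C (l x.v))
  have hp0 : p.eval (l x0.v) ≠ 0 := by
    rw [Polynomial.eval_prod]
    apply Finset.prod_ne_zero_iff.mpr
    intro x hx
    rw [Finset.mem_filter, Set.Finite.mem_toFinset] at hx
    rw [Polynomial.eval_sub, Polynomial.eval_X, Polynomial.eval_C]
    exact sub_ne_zero.mpr (hsep x0 x hx0 hx.1 (Ne.symm hx.2))
  have h2 := hpoly p
  rw [pair, finsum_eq_single _ x0] at h2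
  · rw [if_pos rfl] at h2
    exact (mul_ne_zero hx0 hp0) h2
  · intro x hx
    by_cases hc : f.c x = 0
    · rw [hc, zero_mul]
    · by_cases hg : x.g = x0.g
      · rw [if_pos hg]
        have hv : x.v ≠ x0.v := fun h => hx (AffV.ext h hg)
        have : p.eval (l x.v) = 0 := by
          rw [Polynomial.eval_prod]
          apply Finset.prod_eq_zero (i := x)
          · rw [Finset.mem_filter, Set.Finite.mem_toFinset]
            exact ⟨hc, hv⟩
          · simp
        rw [this, mul_zero]
      · rw [if_neg hg, mul_zero]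

end mom

end Pool.Agent.Run7.h621.T2
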