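import Pool.Agent.Run7.h621.T2.Trans

/-!
# Ranks over division rings
-/

set_option autoImplicit false
set_option linter.unusedSectionVars false

namespace Pool.Agent.Run7.h621.T2

variable {D : Type} [DivisionRing D] {m : ℕ} {ι : Type}

theorem sum_on (T : Finset (Fin m)) (a f : Fin m → D) (ha : ∀ j, j ∉ T → a j = 0) :
    ∑ j, a j * f j = ∑ j ∈ T, a j * f j := by
  symm
  apply Finset.sum_subset (Finset.subset_univ _)
  intro j _ hj
  rw [ha j hj, zero_mul]

/-- a row which is dependent on the others is a combination of them -/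
theorem row_comb (w : Fin m → ι → D) (T : Finset (Fin m)) (C : Finset ι) (hT : IndD w T C)
    (j0 : Fin m) (hj0 : j0 ∉ T) (h : ¬ IndD w (insert j0 T) C) :
    ∃ b : Fin m → D, (∀ j, j ∉ T → b j = 0) ∧ ∀ t ∈ C, w j0 t = ∑ j, b j * w j t := by
  classical
  simp only [IndD] at h
  push Not at h
  obtain ⟨a, ha, hsum, j1, hj1⟩ := h
  have ha0 : a j0 ≠ 0 := by
    intro h0
    apply hj1
    refine hT a (fun j hj => ?_) hsum j1
    by_cases hjj : j = j0
    · rw [hjj]; exact h0
    · exact ha j (fun h => by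
        rcases Finset.mem_insert.mp h with h | h
        · exact hjj h
        · exact hj h)
  refine ⟨fun j => if j ∈ T then -((a j0)⁻¹ * a j) else 0, fun j hj => by simp [hj], ?_⟩
  intro t ht
  have h1 := hsum t ht
  rw [sum_on (insert j0 T) a (fun j => w j t) ha, Finset.sum_insert hj0] at h1
  have h3 : w j0 t = -((a j0)⁻¹ * ∑ j ∈ T, a j * w j t) := by
    have h4 : a j0 * w j0 t = -∑ j ∈ T, a j * w j t := eq_neg_of_add_eq_zero_left h1
    calc w j0 t = (a j0)⁻¹ * (a j0 * w j0 t) := by
          rw [← mul_assoc, inv_mul_cancel₀ ha0, one_mul]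
      _ = _ := by rw [h4, mul_neg]
  rw [sum_on T _ (fun j => w j t) (fun j hj => by simp [hj]), h3, Finset.mul_sum,
    ← Finset.sum_neg_distrib]
  refine Finset.sum_congr rfl fun j hj => ?_
  rw [if_pos hj, neg_mul, mul_assoc]

/-- If the rank does not drop when the columns in `B` are omitted, then there is no nonzero vector
in the row space supported on `B`. -/
theorem free_aux [DecidableEq ι] (w : Fin m → ι → D) (C B : Finset ι) (T : Finset (Fin m))
    (hT : IndD w T (C \ B))
    (hmax : ∀ T', IndD w T' C → T'.card ≤ T.card) (v : ι → D)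
    (hv : InSpan w Finset.univ C v) (hvB : ∀ t, t ∉ B → v t = 0) : ∀ t, v t = 0 := by
  classical
  have hTC : IndD w T C := hT.mono_right Finset.sdiff_subset
  have hrow : ∀ j, ∃ b : Fin m → D, (∀ i, i ∉ T → b i = 0) ∧ ∀ t ∈ C, w j t = ∑ i, b i * w i t := by
    intro j
    by_cases hj : j ∈ T
    · refine ⟨Pi.single j 1, fun i hi => Pi.single_eq_of_ne (by rintro rfl; exact hi hj) _, ?_⟩
      intro t _
      rw [Finset.sum_eq_single j]
      · simp
      · intro i _ hi
        rw [Pi.single_eq_of_ne hi, zero_mul]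
      · intro h; exact absurd (Finset.mem_univ _) h
    · refine row_comb w T C hTC j hj fun h => ?_
      have := hmax _ h
      rw [Finset.card_insert_of_notMem hj] at this
      omega
  choose b hb1 hb2 using hrow
  obtain ⟨a, _, ha2, ha3⟩ := hv
  let e : Fin m → D := fun i => ∑ j, a j * b j i
  have he : ∀ t ∈ C, v t = ∑ i, e i * w i t := by
    intro t ht
    rw [ha2 t ht]
    simp only [e, Finset.sum_mul]
    rw [Finset.sum_comm]
    refine Finset.sum_congr rfl fun j _ => ?_
    rw [hb2 j t ht, Finset.mul_sum]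
    exact Finset.sum_congr rfl fun i _ => by rw [mul_assoc]
  have he0 : ∀ i, e i = 0 := by
    refine hT e (fun i hi => ?_) (fun t ht => ?_)
    · apply Finset.sum_eq_zero
      intro j _
      rw [hb1 j i hi, mul_zero]
    · rw [Finset.mem_sdiff] at ht
      rw [← he t ht.1]
      exact hvB t ht.2
  intro t
  by_cases ht : t ∈ C
  · rw [he t ht]
    apply Finset.sum_eq_zero
    intro i _
    rw [he0 i, zero_mul]
  · exact ha3 t ht

open Classical in
/-- The rank of the rows, restricted to the columns in `C`. -/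
noncomputable def rk (w : Fin m → ι → D) (C : Finset ι) : ℕ :=
  ((Finset.univ : Finset (Finset (Fin m))).filter fun T => IndD w T C).sup Finset.card

theorem le_rk (w : Fin m → ι → D) (C : Finset ι) (T : Finset (Fin m)) (h : IndD w T C) :
    T.card ≤ rk w C := by
  classical
  exact Finset.le_sup (f := Finset.card) (Finset.mem_filter.mpr ⟨Finset.mem_univ _, h⟩)

theorem exists_rk (w : Fin m → ι → D) (C : Finset ι) : ∃ T, IndD w T C ∧ T.card = rk w C := by
  classical
  have hne : ((Finset.univ : Finset (Finset (Fin m))).filter fun T => IndD w T C).Nonempty :=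
    ⟨∅, Finset.mem_filter.mpr ⟨Finset.mem_univ _, fun a ha _ j => ha j (Finset.notMem_empty j)⟩⟩
  obtain ⟨T, hT, he⟩ := Finset.exists_mem_eq_sup _ hne Finset.card
  exact ⟨T, (Finset.mem_filter.mp hT).2, he.symm⟩

theorem rk_le (w : Fin m → ι → D) (C : Finset ι) : rk w C ≤ m := by
  obtain ⟨T, _, h⟩ := exists_rk w C
  rw [← h]
  exact (Finset.card_le_univ T).trans (by simp)

theorem rk_mono (w : Fin m → ι → D) {C C' : Finset ι} (h : C ⊆ C') : rk w C ≤ rk w C' := by
  obtain ⟨T, hT, he⟩ := exists_rk w C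
  rw [← he]
  exact le_rk w C' T (hT.mono_right h)

theorem rk_free [DecidableEq ι] (w : Fin m → ι → D) (C B : Finset ι)
    (h : rk w (C \ B) = rk w C) (v : ι → D)
    (hv : InSpan w Finset.univ C v) (hvB : ∀ t, t ∉ B → v t = 0) : ∀ t, v t = 0 := by
  obtain ⟨T, hT, he⟩ := exists_rk w (C \ B)
  refine free_aux w C B T hT (fun T' hT' => ?_) v hv hvB
  rw [he, h]
  exact le_rk w C T' hT'

/-- As many columns as the rank suffice. -/
theorem rk_cols [Fintype ι] [DecidableEq ι] (w : Fin m → ι → D) (C : Finset ι) :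
    ∃ P : Finset ι, P ⊆ C ∧ P.card ≤ rk w C ∧ rk w P = rk w C := by
  classical
  obtain ⟨T, hT, he⟩ := exists_rk w C
  obtain ⟨P, hPC, hPc, hP⟩ := cols w T C
  refine ⟨P, hPC, he ▸ hPc, le_antisymm (rk_mono w hPC) ?_⟩
  rw [← he]
  apply le_rk
  intro a ha hsum
  let v : ι → D := fun t => if t ∈ C then ∑ j, a j * w j t else 0
  have hv0 := hP v ⟨a, ha, fun t ht => by simp [v, ht], fun t ht => by simp [v, ht]⟩ (by
    intro t ht
    simp only [v, hPC ht, if_true]
    exact hsum t ht)
  refine hT a ha fun t ht => ?_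
  have := hv0 t
  simpa [v, ht] using this

end Pool.Agent.Run7.h621.T2
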