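import Pool.Agent.Run7.h621.T2.Cross

/-!
# Semicontinuity of the rank
-/

set_option autoImplicit false
set_option linter.unusedSectionVars false

namespace Pool.Agent.Run7.h621.T2

open Monoid

attribute [local instance] act

section scal

variable (G : Type) [Group G] [LinearOrder G] [MulLeftMono G] [MulRightMono G]

/-- real numbers as series -/
noncomputable def scal : ℝ →+* MN G where
  toFun r := MN.single 1 r
  map_one' := rfl
  map_mul' r s := by rw [MN.single_mul_single, mul_one]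
  map_zero' := by
    ext x
    by_cases h : x = 1
    · subst h; simp
    · rw [MN.single_ne _ _ _ h, MN.zero_c]
  map_add' r s := MN.single_add 1 r s

theorem scal_apply (r : ℝ) : scal G r = MN.single 1 r := rfl

variable {G}

theorem scal_comm (r : ℝ) (g : G) : scal G r * MN.sing g = MN.sing g * scal G r := by
  rw [scal_apply, MN.sing_apply, MN.single_mul_single, MN.single_mul_single, one_mul, mul_one,
    mul_one, one_mul]

end scal

variable {G : Type} [Group G] [LinearOrder G] [MulLeftMono G] [MulRightMono G]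
  {V : Type} [AddCommGroup V] [Module (MN G) V]

/-- real linear functionals on `V` -/
def Lin (l : V → ℝ) : Prop :=
  (∀ v w, l (v + w) = l v + l w) ∧ ∀ (a : ℝ) (v : V), l (scal G a • v) = a * l v

theorem Lin.zero {l : V → ℝ} (hl : Lin (G := G) l) : l 0 = 0 := by
  have := hl.1 0 0
  rw [add_zero] at this
  linarith

theorem Lin.smul {l : V → ℝ} (hl : Lin (G := G) l) (g : G) :
    Lin (G := G) (fun v => l (g • v)) := by
  refine ⟨fun v w => ?_, fun a v => ?_⟩
  · beta_reduce
    rw [smul_add, hl.1]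
  · change l (MN.sing g • scal G a • v) = a * l (MN.sing g • v)
    rw [← mul_smul, ← scal_comm, mul_smul, hl.2]

/-- There are enough functionals. -/
theorem exists_lin (G : Type) [Group G] [LinearOrder G] [MulLeftMono G] [MulRightMono G]
    {V : Type} [AddCommGroup V] [Module (MN G) V] (X : Finset V) (hX : ∀ v ∈ X, v ≠ 0) :
    ∃ l : V → ℝ, Lin (G := G) l ∧ ∀ v ∈ X, l v ≠ 0 := by
  let _ : Module ℝ V := Module.compHom V (scal G)
  obtain ⟨f, hf⟩ := Module.exists_dual_forall_apply_ne_zero (K := ℝ) (M := V)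
    (fun x : X => (x : V)) (fun x => hX x x.2)
  refine ⟨f, ⟨fun v w => map_add f v w, fun a v => ?_⟩, fun v hv => hf ⟨v, hv⟩⟩
  have := map_smul f a v
  exact this

variable [LinearOrder V] [IsOrderedAddMonoid V] [MulLeftMono (AffV V G)]
  {ι : Type} [DecidableEq ι] {S : ι → Type} [∀ i, Group (S i)]
  (ψ : CoprodI S →* G) (c : ∀ i, S i → MN G)
  (hc : ∀ i s t, c i (s * t) = c i s + MN.sing (ψ (CoprodI.of s)) * c i t)
  (ψ' : CoprodI S →* AffV V G) (c' : ∀ i, S i → MN (AffV V G))
  (hc' : ∀ i s t, c' i (s * t) = c' i s + MN.sing (ψ' (CoprodI.of s)) * c' i t)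

theorem mom_sing_mul (l : V → ℝ) (hl : Lin (G := G) l) (k : ℕ) (x : AffV V G)
    {f : MN (AffV V G)} (hf : FinS f) (y : G) :
    mom l k (MN.sing x * f) y = ∑ i ∈ Finset.range (k + 1),
      (l x.v) ^ i * (k.choose i : ℝ) * mom (fun v => l (x.g • v)) (k - i) f (x.g⁻¹ * y) := by
  rw [MN.sing_apply, mom_single_mul l hl.1 k x 1 hf]
  simp only [one_mul]

theorem mom0_sing_mul (l : V → ℝ) (x : AffV V G)
    {f : MN (AffV V G)} (y : G) :
    mom l 0 (MN.sing x * f) y = mom (fun _ => 0) 0 f (x.g⁻¹ * y) := by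
  classical
  rw [MN.sing_apply, mom, mom, pair_single_mul, one_mul]
  congr 1
  funext z
  simp only [AffV.mul_g, pow_zero]
  by_cases h : z.g = x.g⁻¹ * y
  · rw [if_pos h, if_pos]
    rw [h]; group
  · rw [if_neg h, if_neg]
    intro h2
    apply h
    rw [← h2]; group

theorem mom0_indep (l l' : V → ℝ) (f : MN (AffV V G)) (y : G) : mom l 0 f y = mom l' 0 f y := by
  simp only [mom, pow_zero]

/-- first case -/
theorem caseA (hg : ∀ x, (ψ' x).g = ψ x) (hfin' : ∀ i s, FinS (c' i s)) (t : ι)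
    (hA : (∀ s : S t, c t s = MN.sing (ψ (CoprodI.of s)) - 1 ∧
      c' t s = MN.sing (ψ' (CoprodI.of s)) - 1) ∨
      (∀ s : S t, ∃ a : ℝ, c t s = MN.single 1 a ∧ c' t s = MN.single 1 a))
    (x : CoprodI S) (l : V → ℝ) (y : G) :
    mom l 0 ((Phi ψ' c' hc' x).v t) y = ((Phi ψ c hc x).v t).c y := by
  classical
  induction x using CoprodI.induction_on generalizing l y with
  | one => rw [Phi_one_vt, Phi_one_vt, mom_zero, MN.zero_c]
  | of i s =>
    by_cases h : t = i
    · subst h
      rw [Phi_of_same, Phi_of_same]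
      rcases hA with hA | hA
      · obtain ⟨h1, h2⟩ := hA s
        rw [h1, h2, mom_sub (FinS.sing _) FinS.one, MN.sub_c, MN.one_def, MN.one_def,
          MN.sing_apply, MN.sing_apply, mom_single, mom_single, hg]
        simp only [pow_zero, mul_one, AffV.one_g]
        by_cases hy : y = ψ (CoprodI.of s)
        · subst hy
          rw [if_pos rfl, MN.single_same]
          by_cases hy1 : ψ (CoprodI.of s) = 1
          · rw [if_pos hy1, hy1, MN.single_same]
          · rw [if_neg hy1, MN.single_ne _ _ _ hy1]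
        · rw [if_neg hy, MN.single_ne _ _ _ hy]
          by_cases hy1 : y = 1
          · rw [if_pos hy1, hy1, MN.single_same]
          · rw [if_neg hy1, MN.single_ne _ _ _ hy1]
      · obtain ⟨a, h1, h2⟩ := hA s
        rw [h1, h2, mom_single]
        simp only [pow_zero, mul_one, AffV.one_g]
        by_cases hy1 : y = 1
        · rw [if_pos hy1, hy1, MN.single_same]
        · rw [if_neg hy1, MN.single_ne _ _ _ hy1]
    · rw [Phi_of_ne _ _ _ i t s h, Phi_of_ne _ _ _ i t s h, mom_zero, MN.zero_c]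
  | mul x x' hx hx' =>
    have f1 := Phi_fin ψ' c' hc' hfin' x t
    have f2 := Phi_fin ψ' c' hc' hfin' x' t
    rw [Phi_mul_vt, Phi_mul_vt, mom_add f1 ((FinS.sing _).mul f2), hx, MN.add_c, mom0_sing_mul,
      hx', MN.sing_apply, MN.single_mul_c, hg, one_mul]

/-- second case, order zero -/
theorem caseB0 (hfin' : ∀ i s, FinS (c' i s)) (t : ι)
    (hB : ∀ s : S t, (ψ' (CoprodI.of s)).g = 1 ∧ c' t s = MN.sing (ψ' (CoprodI.of s)) - 1)
    (x : CoprodI S) (l : V → ℝ) (y : G) :
    mom l 0 ((Phi ψ' c' hc' x).v t) y = 0 := by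
  classical
  induction x using CoprodI.induction_on generalizing l y with
  | one => rw [Phi_one_vt, mom_zero]
  | of i s =>
    by_cases h : t = i
    · subst h
      rw [Phi_of_same]
      obtain ⟨h1, h2⟩ := hB s
      rw [h2, mom_sub (FinS.sing _) FinS.one, MN.one_def,
        MN.sing_apply, mom_single, mom_single, h1]
      simp
    · rw [Phi_of_ne _ _ _ i t s h, mom_zero]
  | mul x x' hx hx' =>
    have f1 := Phi_fin ψ' c' hc' hfin' x t
    have f2 := Phi_fin ψ' c' hc' hfin' x' t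
    rw [Phi_mul_vt, mom_add f1 ((FinS.sing _).mul f2), hx, mom0_sing_mul, hx', add_zero]

/-- second case, order one -/
theorem caseB1 (hg : ∀ x, (ψ' x).g = ψ x) (hfin' : ∀ i s, FinS (c' i s)) (t : ι) (z : V)
    (hB : ∀ s : S t, ψ (CoprodI.of s) = 1 ∧ c' t s = MN.sing (ψ' (CoprodI.of s)) - 1 ∧
      ∃ a : ℝ, c t s = MN.single 1 a ∧ (ψ' (CoprodI.of s)).v = scal G a • z)
    (x : CoprodI S) (l : V → ℝ) (hl : Lin (G := G) l) (y : G) :
    mom l 1 ((Phi ψ' c' hc' x).v t) y = l (y • z) * ((Phi ψ c hc x).v t).c y := by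
  classical
  have hB0 : ∀ s : S t, (ψ' (CoprodI.of s)).g = 1 ∧ c' t s = MN.sing (ψ' (CoprodI.of s)) - 1 :=
    fun s => ⟨by rw [hg]; exact (hB s).1, (hB s).2.1⟩
  induction x using CoprodI.induction_on generalizing l y with
  | one => rw [Phi_one_vt, Phi_one_vt, mom_zero, MN.zero_c, mul_zero]
  | of i s =>
    by_cases h : t = i
    · subst h
      rw [Phi_of_same, Phi_of_same]
      obtain ⟨h1, h2, a, h3, h4⟩ := hB s
      rw [h2, h3, mom_sub (FinS.sing _) FinS.one, MN.one_def,
        MN.sing_apply, mom_single, mom_single, hg, h1, h4]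
      simp only [pow_one, AffV.one_g, AffV.one_v, one_mul]
      rw [hl.2, hl.zero]
      by_cases hy : y = 1
      · subst hy
        rw [if_pos rfl, if_pos rfl, MN.single_same, one_smul]
        ring
      · rw [if_neg hy, if_neg hy, MN.single_ne _ _ _ hy]
        ring
    · rw [Phi_of_ne _ _ _ i t s h, Phi_of_ne _ _ _ i t s h, mom_zero, MN.zero_c, mul_zero]
  | mul x x' hx hx' =>
    have f1 := Phi_fin ψ' c' hc' hfin' x t
    have f2 := Phi_fin ψ' c' hc' hfin' x' t
    rw [Phi_mul_vt, Phi_mul_vt, mom_add f1 ((FinS.sing _).mul f2), hx l hl, MN.add_c,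
      mom_sing_mul l hl 1 _ f2, Finset.sum_range_succ, Finset.sum_range_one]
    simp only [pow_zero, Nat.choose_zero_right, Nat.cast_one, mul_one, one_mul, Nat.sub_zero,
      pow_one, Nat.choose_self, Nat.sub_self]
    rw [caseB0 ψ' c' hc' hfin' t hB0, mul_zero, add_zero, hx' _ (hl.smul _), MN.sing_apply,
      MN.single_mul_c, hg, one_mul, ← mul_smul, mul_inv_cancel_left]
    ring

/-- **Semicontinuity**: independence over the group algebra is inherited. -/
theorem sc (hg : ∀ x, (ψ' x).g = ψ x) (hfin : ∀ i s, FinS (c i s))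
    (hfin' : ∀ i s, FinS (c' i s)) (C : Finset ι)
    (hcase : ∀ t ∈ C, ((∀ s : S t, c t s = MN.sing (ψ (CoprodI.of s)) - 1 ∧
        c' t s = MN.sing (ψ' (CoprodI.of s)) - 1) ∨
      (∀ s : S t, ∃ a : ℝ, c t s = MN.single 1 a ∧ c' t s = MN.single 1 a)) ∨
      ∃ z : V, z ≠ 0 ∧ ∀ s : S t, ψ (CoprodI.of s) = 1 ∧
        c' t s = MN.sing (ψ' (CoprodI.of s)) - 1 ∧
        ∃ a : ℝ, c t s = MN.single 1 a ∧ (ψ' (CoprodI.of s)).v = scal G a • z)
    {m : ℕ} (r : Fin m → CoprodI S) (T : Finset (Fin m))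
    (h : IndR (fun j t => (Phi ψ c hc (r j)).v t) T C) :
    IndR (fun j t => (Phi ψ' c' hc' (r j)).v t) T C := by
  classical
  intro f hf hfT hsum
  by_contra hcon
  push Not at hcon
  obtain ⟨j0, hj0⟩ := hcon
  -- the vectors where the functional must not vanish
  have hzex : ∀ t : ι, ∃ z : V, t ∈ C → (((∀ s : S t, c t s = MN.sing (ψ (CoprodI.of s)) - 1 ∧
        c' t s = MN.sing (ψ' (CoprodI.of s)) - 1) ∨
      (∀ s : S t, ∃ a : ℝ, c t s = MN.single 1 a ∧ c' t s = MN.single 1 a)) ∨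
      (z ≠ 0 ∧ ∀ s : S t, ψ (CoprodI.of s) = 1 ∧
        c' t s = MN.sing (ψ' (CoprodI.of s)) - 1 ∧
        ∃ a : ℝ, c t s = MN.single 1 a ∧ (ψ' (CoprodI.of s)).v = scal G a • z)) := by
    intro t
    by_cases ht : t ∈ C
    · rcases hcase t ht with h1 | ⟨z, hz⟩
      · exact ⟨0, fun _ => Or.inl h1⟩
      · exact ⟨z, fun _ => Or.inr hz⟩
    · exact ⟨0, fun h => absurd h ht⟩
  choose z hz using hzex
  let Y : Finset G := Finset.univ.biUnion fun j : Fin m =>
    ((hf j).toFinset.image AffV.g) ×ˢ (C.biUnion fun t => (Phi_fin ψ c hc hfin (r j) t).toFinset)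
      |>.image fun p => p.1 * p.2
  let X1 : Finset V := ((Finset.univ.biUnion fun j => (hf j).toFinset) ×ˢ
    (Finset.univ.biUnion fun j => (hf j).toFinset)).image fun p => p.1.v - p.2.v
  let X2 : Finset V := (Y ×ˢ C).image fun p => p.1 • z p.2
  obtain ⟨l, hl, hlX⟩ := exists_lin G ((X1 ∪ X2).filter (· ≠ 0)) (by
    intro v hv
    exact (Finset.mem_filter.mp hv).2)
  have hsep : ∀ j j' (x y : AffV V G), (f j).c x ≠ 0 → (f j').c y ≠ 0 → x.v ≠ y.v →
      l x.v ≠ l y.v := by
    intro j j' x y hx hy hxy hlxy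
    have h1 : x.v - y.v ∈ (X1 ∪ X2).filter (· ≠ 0) := by
      rw [Finset.mem_filter]
      refine ⟨Finset.mem_union_left _ (Finset.mem_image.mpr ⟨(x, y), ?_, rfl⟩),
        sub_ne_zero.mpr hxy⟩
      rw [Finset.mem_product]
      exact ⟨Finset.mem_biUnion.mpr ⟨j, Finset.mem_univ _, (hf j).mem_toFinset.mpr hx⟩,
        Finset.mem_biUnion.mpr ⟨j', Finset.mem_univ _, (hf j').mem_toFinset.mpr hy⟩⟩
    apply hlX _ h1
    have h2 := hl.1 (x.v - y.v) y.v
    rw [sub_add_cancel] at h2
    linarith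
  have hnz : ∀ y ∈ Y, ∀ t ∈ C, z t ≠ 0 → l (y • z t) ≠ 0 := by
    intro y hy t ht hzt
    apply hlX
    rw [Finset.mem_filter]
    refine ⟨Finset.mem_union_right _ (Finset.mem_image.mpr ⟨(y, t),
      Finset.mem_product.mpr ⟨hy, ht⟩, rfl⟩), ?_⟩
    intro h0
    apply hzt
    have : y⁻¹ • y • z t = y⁻¹ • (0 : V) := by rw [h0]
    rwa [inv_smul_smul, smul_zero] at this
  -- the lowest moment
  have hex : ∃ k, ∃ j y, mom l k (f j) y ≠ 0 := by
    obtain ⟨k, y, hky⟩ := exists_mom_ne (hf j0) hj0 l (hsep j0 j0)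
    exact ⟨k, j0, y, hky⟩
  obtain ⟨k, hk, hkmin⟩ : ∃ k, (∃ j y, mom l k (f j) y ≠ 0) ∧
      ∀ i < k, ∀ j y, mom l i (f j) y = 0 := by
    refine ⟨Nat.find hex, Nat.find_spec hex, fun i hi j y => ?_⟩
    have := Nat.find_min hex hi
    push Not at this
    exact this j y
  obtain ⟨j1, y1, hk1⟩ := hk
  have ha := h (fun j => momS l k (f j) (hf j)) (fun j => momS_fin l k (f j) (hf j)) (by
    intro j hj
    ext y
    change mom l k (f j) y = 0
    rw [hfT j hj, mom_zero]) (by
    intro t ht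
    ext y
    rw [sum_c, MN.zero_c]
    have hfs := hsum t ht
    rcases hz t ht with hA | ⟨hz0, hB⟩
    · have h1 : ∀ j, mom l k (f j * (Phi ψ' c' hc' (r j)).v t) y =
          (momS l k (f j) (hf j) * (Phi ψ c hc (r j)).v t).c y := by
        intro j
        exact mom_mul_low l hl.1 k (hf j) (Phi_fin ψ' c' hc' hfin' (r j) t)
          (fun i hi h => hkmin i hi j h) _
          (fun l' y => caseA ψ c hc ψ' c' hc' hg hfin' t hA (r j) l' y) y
      have h2 := congrArg (fun F => mom l k F y) hfs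
      simp only [mom_zero] at h2
      rw [mom_sum _ _ (fun j _ => (hf j).mul (Phi_fin ψ' c' hc' hfin' (r j) t))] at h2
      rw [← h2]
      exact Finset.sum_congr rfl fun j _ => (h1 j).symm
    · by_cases hy : y ∈ Y
      · have hB0 : ∀ s : S t, (ψ' (CoprodI.of s)).g = 1 ∧
            c' t s = MN.sing (ψ' (CoprodI.of s)) - 1 :=
          fun s => ⟨by rw [hg]; exact (hB s).1, (hB s).2.1⟩
        have h1 : ∀ j, mom l (k + 1) (f j * (Phi ψ' c' hc' (r j)).v t) y =
            (k + 1) * l (y • z t) * (momS l k (f j) (hf j) * (Phi ψ c hc (r j)).v t).c y := by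
          intro j
          exact mom_mul_low' l hl.1 k (hf j) (Phi_fin ψ' c' hc' hfin' (r j) t)
            (fun i hi h => hkmin i hi j h) _ (z t)
            (fun l' y => caseB0 ψ' c' hc' hfin' t hB0 (r j) l' y)
            (fun h y => caseB1 ψ c hc ψ' c' hc' hg hfin' t (z t) hB (r j) _ (hl.smul h) y) y
        have h2 := congrArg (fun F => mom l (k + 1) F y) hfs
        simp only [mom_zero] at h2
        rw [mom_sum _ _ (fun j _ => (hf j).mul (Phi_fin ψ' c' hc' hfin' (r j) t)),
          Finset.sum_congr rfl fun j _ => h1 j, ← Finset.mul_sum] at h2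
        rcases mul_eq_zero.mp h2 with h3 | h3
        · exfalso
          rcases mul_eq_zero.mp h3 with h4 | h4
          · have : (0 : ℝ) < (k : ℝ) + 1 := by positivity
            linarith
          · exact hnz y hy t ht hz0 h4
        · exact h3
      · apply Finset.sum_eq_zero
        intro j _
        by_contra hne
        apply hy
        have h5 := MN.supp_mul _ _ (Function.mem_support.mpr hne)
        obtain ⟨a, ha, b, hb, hab⟩ := h5
        obtain ⟨a', ha', rfl⟩ := mom_support (f j) l k ha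
        simp only [Y, Finset.mem_biUnion]
        refine ⟨j, Finset.mem_univ _, Finset.mem_image.mpr ⟨(a'.g, b), ?_, hab⟩⟩
        rw [Finset.mem_product]
        refine ⟨Finset.mem_image.mpr ⟨a', (hf j).mem_toFinset.mpr ha', rfl⟩, ?_⟩
        rw [Finset.mem_biUnion]
        exact ⟨t, ht, (Phi_fin ψ c hc hfin (r j) t).mem_toFinset.mpr hb⟩) j1
  apply hk1
  have := congrArg (fun F => MN.c F y1) ha
  exact this

end Pool.Agent.Run7.h621.T2
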