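import Pool.Agent.Run7.h621.Step2
import Pool.Agent.Run7.h621.T2.SC
import Pool.Agent.Run7.h621.T2.Rank

/-!
# Points and one step of the tower
-/

set_option autoImplicit false
set_option linter.unusedSectionVars false

namespace Pool.Agent.Run7.h621.T2

open Monoid

attribute [local instance] act

/-- A homomorphism of the free product of the `S t` to an amenable bi-ordered group, which kills
the relators and is injective or trivial on each factor. -/
structure Pt {ι : Type} {m : ℕ} (S : ι → Type) [∀ i, Group (S i)]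
    (r : Fin m → CoprodI S) : Type 1 where
  G : Type
  iG : Group G
  iO : LinearOrder G
  iL : MulLeftMono G
  iR : MulRightMono G
  am : Amen G
  ψ : CoprodI S →* G
  kills : ∀ j, ψ (r j) = 1
  st : ∀ t, (∀ s : S t, ψ (CoprodI.of s) = 1 → s = 1) ∨ (∀ s : S t, ψ (CoprodI.of s) = 1)

attribute [instance] Pt.iG Pt.iO Pt.iL Pt.iR

namespace Pt

variable {ι : Type} [DecidableEq ι] {m : ℕ} {S : ι → Type} [∀ i, Group (S i)]
  {r : Fin m → CoprodI S} (lam : ∀ t, S t → ℝ) (hlam : ∀ t s s', lam t (s * s') = lam t s + lam t s')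

/-- injective on a factor -/
def Inj (p : Pt S r) (t : ι) : Prop := ∀ s : S t, p.ψ (CoprodI.of s) = 1 → s = 1

open Classical in
/-- the letters -/
noncomputable def c (p : Pt S r) (t : ι) (s : S t) : MN p.G :=
  if p.Inj t then MN.sing (p.ψ (CoprodI.of s)) - 1 else MN.single 1 (lam t s)

theorem c_inj (p : Pt S r) (t : ι) (h : p.Inj t) (s : S t) :
    p.c lam t s = MN.sing (p.ψ (CoprodI.of s)) - 1 := by
  rw [c, if_pos h]

theorem c_triv (p : Pt S r) (t : ι) (h : ¬ p.Inj t) (s : S t) :
    p.c lam t s = MN.single 1 (lam t s) := by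
  rw [c, if_neg h]

theorem triv (p : Pt S r) (t : ι) (h : ¬ p.Inj t) (s : S t) : p.ψ (CoprodI.of s) = 1 := by
  rcases p.st t with h' | h'
  · exact absurd h' h
  · exact h' s

include hlam in
theorem hc (p : Pt S r) (t : ι) (s s' : S t) : p.c lam t (s * s') =
    p.c lam t s + MN.sing (p.ψ (CoprodI.of s)) * p.c lam t s' := by
  by_cases h : p.Inj t
  · rw [c_inj lam p t h, c_inj lam p t h, c_inj lam p t h, map_mul, map_mul, map_mul, mul_sub,
      mul_one]
    abel
  · rw [c_triv lam p t h, c_triv lam p t h, c_triv lam p t h, p.triv t h, map_one, one_mul,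
      hlam, MN.single_add]

theorem c_fin (p : Pt S r) (t : ι) (s : S t) : FinS (p.c lam t s) := by
  by_cases h : p.Inj t
  · rw [c_inj lam p t h]; exact (FinS.sing _).sub FinS.one
  · rw [c_triv lam p t h]; exact FinS.single _ _

/-- the rows -/
noncomputable def row (p : Pt S r) (j : Fin m) (t : ι) : MN p.G :=
  (Phi p.ψ (p.c lam) (p.hc lam hlam) (r j)).v t

/-- trivial outside of `C` -/
def Off (p : Pt S r) (C : Finset ι) : Prop := ∀ t, t ∉ C → ∀ s : S t, p.ψ (CoprodI.of s) = 1

/-- the rank -/
noncomputable def rnk (p : Pt S r) (C : Finset ι) : ℕ := rk (p.row lam hlam) C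

end Pt

variable {ι : Type} [Fintype ι] [DecidableEq ι] {m : ℕ} {S : ι → Type} [∀ i, Group (S i)]
  {r : Fin m → CoprodI S} (lam : ∀ t, S t → ℝ) (hlam : ∀ t s s', lam t (s * s') = lam t s + lam t s')
  (hlinj : ∀ t, Function.Injective (lam t))

/-- the quotient by the row space -/
theorem exists_quot {D : Type} [DivisionRing D] (w : Fin m → ι → D) (C : Finset ι) :
    ∃ (k : ℕ) (q : (ι → D) →ₗ[D] (Fin k → D)), (∀ j, q (w j) = 0) ∧
      (∀ t, t ∉ C → ∀ d, q (Pi.single t d) = 0) ∧
      ∀ v : ι → D, (∀ t, t ∉ C → v t = 0) → q v = 0 → InSpan w Finset.univ C v := by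
  classical
  let π : (ι → D) →ₗ[D] (ι → D) :=
    { toFun := fun v t => if t ∈ C then v t else 0
      map_add' := by
        intro v v'
        funext t
        by_cases h : t ∈ C <;> simp [h]
      map_smul' := by
        intro a v
        funext t
        by_cases h : t ∈ C <;> simp [h] }
  let W : Submodule D (ι → D) := Submodule.span D (Set.range fun j => π (w j))
  let q0 : (ι → D) →ₗ[D] (Fin (Module.finrank D ((ι → D) ⧸ W)) → D) :=
    (Module.finBasis D ((ι → D) ⧸ W)).equivFun.toLinearMap ∘ₗ W.mkQ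
  have hq0 : ∀ v, q0 v = 0 ↔ v ∈ W := by
    intro v
    rw [← Submodule.Quotient.mk_eq_zero W, ← Submodule.mkQ_apply]
    exact (Module.finBasis D ((ι → D) ⧸ W)).equivFun.map_eq_zero_iff
  refine ⟨_, q0 ∘ₗ π, ?_, ?_, ?_⟩
  · intro j
    rw [LinearMap.comp_apply, hq0]
    exact Submodule.subset_span ⟨j, rfl⟩
  · intro t ht d
    have : π (Pi.single t d) = 0 := by
      funext i
      by_cases h : i ∈ C
      · have : i ≠ t := by rintro rfl; exact ht h
        simp [π, this]
      · simp [π, h]
    rw [LinearMap.comp_apply, this, map_zero]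
  · intro v hv hqv
    rw [LinearMap.comp_apply, hq0] at hqv
    have hπ : π v = v := by
      funext t
      by_cases h : t ∈ C
      · simp [π, h]
      · simp [π, h, hv t h]
    rw [hπ] at hqv
    obtain ⟨a, ha⟩ := (Submodule.mem_span_range_iff_exists_fun D).mp hqv
    refine ⟨a, fun j hj => absurd (Finset.mem_univ j) hj, ?_, hv⟩
    intro t ht
    rw [← ha, Finset.sum_apply]
    simp [π, ht]

include hlinj in
theorem step (p : Pt S r) (C : Finset ι) (hoff : p.Off C) :
    ∃ p' : Pt S r, p'.Off C ∧ p'.ψ.ker ≤ p.ψ.ker ∧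
      (∀ C', C' ⊆ C → p.rnk lam hlam C' ≤ p'.rnk lam hlam C') ∧
      ∀ B, B ⊆ C → p.rnk lam hlam (C \ B) = p.rnk lam hlam C →
        (∀ t ∈ B, p'.Inj t) ∧
        (∀ (x : Σ i, S i) (L : List (Σ i, S i)) (y : Σ i, S i), y.1 ≠ x.1 →
          (∀ z ∈ x :: (L ++ [y]), z.1 ∈ B) → (∀ z ∈ x :: L, CoprodI.of z.2 ∉ p.ψ.ker) →
          (∀ L' L'' : List (Σ i, S i), L = L' ++ L'' → pr (x :: L') ∉ p.ψ.ker) →
          pr (x :: (L ++ [y])) ∉ p'.ψ.ker) := by
  classical
  obtain ⟨k, q, hqr, hqoff, hqspan⟩ := exists_quot (p.row lam hlam) C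
  have hcc := p.hc lam hlam
  -- the map to the ordered group
  let q' : (ι → MN p.G) →+ Lex (Fin k → MN p.G) := q.toAddMonoidHom
  have hq' : ∀ (g : p.G) (v : ι → MN p.G), q' (g • v) = g • q' v := by
    intro g v
    change q (MN.sing g • v) = MN.sing g • q v
    rw [map_smul]
  let ψ' : CoprodI S →* AffV (Lex (Fin k → MN p.G)) p.G :=
    (AffV.map q' hq').comp (Phi p.ψ (p.c lam) hcc)
  have hψg : ∀ x, (ψ' x).g = p.ψ x := fun x => by
    change (Phi p.ψ (p.c lam) hcc x).g = p.ψ x
    exact Phi_g p.ψ (p.c lam) hcc x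
  have hψv : ∀ x, (ψ' x).v = q (Phi p.ψ (p.c lam) hcc x).v := fun x => rfl
  have hone : ∀ x, ψ' x = 1 ↔ (p.ψ x = 1 ∧ q (Phi p.ψ (p.c lam) hcc x).v = 0) := by
    intro x
    constructor
    · intro h
      refine ⟨by rw [← hψg, h]; rfl, by rw [← hψv, h]; rfl⟩
    · rintro ⟨h1, h2⟩
      apply AffV.ext
      · rw [hψv, h2]; rfl
      · rw [hψg, h1]; rfl
  have hl1 : ∀ t, lam t 1 = 0 := by
    intro t
    have := hlam t 1 1
    rw [mul_one] at this
    linarith
  have hof : ∀ (t : ι) (s : S t), (Phi p.ψ (p.c lam) hcc (CoprodI.of s)).v =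
      p.c lam t s • (Pi.single t 1 : ι → MN p.G) := by
    intro t s
    rw [Phi_of, ← Pi.single_smul]; simp
  have hstate : ∀ t, ¬ p.Inj t → q (Pi.single t 1) ≠ 0 → ∀ s : S t, ψ' (CoprodI.of s) = 1 →
      s = 1 := by
    intro t ht he s hs
    have h2 := ((hone _).mp hs).2
    rw [hof, map_smul, smul_eq_zero, or_iff_left he, p.c_triv lam t ht] at h2
    have h0 := congrArg (fun f => MN.c f 1) h2
    rw [MN.single_same, MN.zero_c] at h0
    exact hlinj t (h0.trans (hl1 t).symm)
  let p' : Pt S r :=
    { G := AffV (Lex (Fin k → MN p.G)) p.G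
      iG := inferInstance
      iO := inferInstance
      iL := inferInstance
      iR := inferInstance
      am := amen_affV _ _ p.am
      ψ := ψ'
      kills := fun j => (hone _).mpr ⟨p.kills j, hqr j⟩
      st := by
        intro t
        by_cases ht : p.Inj t
        · left
          intro s hs
          exact ht s ((hone _).mp hs).1
        · by_cases he : q (Pi.single t 1) = 0
          · right
            intro s
            refine (hone _).mpr ⟨p.triv t ht s, ?_⟩
            rw [hof, map_smul, he, smul_zero]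
          · left
            exact hstate t ht he }
  have hp'inj : ∀ t, p.Inj t → p'.Inj t := fun t ht s hs => ht s ((hone _).mp hs).1
  refine ⟨p', ?_, ?_, ?_, ?_⟩
  · intro t ht s
    refine (hone _).mpr ⟨hoff t ht s, ?_⟩
    rw [Phi_of]
    exact hqoff t ht _
  · intro x hx
    exact ((hone x).mp hx).1
  · intro C' hC'
    obtain ⟨T, hT, hTc⟩ := exists_rk (p.row lam hlam) C'
    change rk _ _ ≤ rk _ _
    rw [← hTc]
    apply le_rk
    refine IndR.indD p'.am _ (fun j t => Phi_fin _ _ _ (p'.c_fin lam) _ _) T C' ?_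
    refine sc p.ψ (p.c lam) hcc p'.ψ (p'.c lam) (p'.hc lam hlam) hψg (p.c_fin lam) (p'.c_fin lam)
      C' ?_ r T hT.indR
    intro t ht
    by_cases hi : p.Inj t
    · left; left
      intro s
      exact ⟨p.c_inj lam t hi s, p'.c_inj lam t (hp'inj t hi) s⟩
    · by_cases he : q (Pi.single t 1) = 0
      · left; right
        have hi' : ¬ p'.Inj t := by
          intro h'
          apply hi
          intro s _
          apply h' s
          refine (hone _).mpr ⟨p.triv t hi s, ?_⟩
          rw [hof, map_smul, he, smul_zero]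
        intro s
        exact ⟨lam t s, p.c_triv lam t hi s, p'.c_triv lam t hi' s⟩
      · right
        refine ⟨q (Pi.single t 1), he, fun s => ⟨p.triv t hi s, ?_, lam t s,
          p.c_triv lam t hi s, ?_⟩⟩
        · exact p'.c_inj lam t (hstate t hi he) s
        · change q (Phi p.ψ (p.c lam) hcc (CoprodI.of s)).v = _
          rw [hof, map_smul, p.c_triv lam t hi s]
          rfl
  · intro B hB hrk
    have hfree : ∀ v : ι → MN p.G, (∀ t, t ∉ B → v t = 0) → q v = 0 → ∀ t, v t = 0 := by
      intro v hv hqv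
      exact rk_free (p.row lam hlam) C B hrk v
        (hqspan v (fun t ht => hv t fun h => ht (hB h)) hqv) hv
    refine ⟨?_, ?_⟩
    · intro t ht
      by_cases hi : p.Inj t
      · exact hp'inj t hi
      · apply hstate t hi
        intro h0
        have := hfree (Pi.single t 1) (fun i hiB => Pi.single_eq_of_ne (by
          rintro rfl; exact hiB ht) _) h0 t
        rw [Pi.single_eq_same] at this
        exact one_ne_zero this
    · intro x L y hxy hmem hlet hini hmemker
      have h2 := ((hone _).mp hmemker).2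
      have h3 := hfree _ (fun i hi => Phi_supp p.ψ (p.c lam) hcc B (x :: (L ++ [y])) hmem i hi) h2
      refine Phi_coef' p.ψ (p.c lam) hcc x L y hxy ?_ ?_ (h3 x.1)
      · intro z hz
        apply p.c_inj
        by_contra hi
        exact hlet z hz (p.triv z.1 hi z.2)
      · intro L' L'' h
        exact hini L' L'' h

end Pool.Agent.Run7.h621.T2
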