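import Pool.Agent.Run7.h621.T2.Tower

/-!
# Selection of the factors
-/

set_option autoImplicit false
set_option linter.unusedSectionVars false

namespace Pool.Agent.Run7.h621.T2

open Monoid

variable {ι : Type} [Fintype ι] [DecidableEq ι] {m : ℕ} {S : ι → Type} [∀ i, Group (S i)]
  {r : Fin m → CoprodI S} (lam : ∀ t, S t → ℝ) (hlam : ∀ t s s', lam t (s * s') = lam t s + lam t s')
  (hlinj : ∀ t, Function.Injective (lam t))

include hlinj in
theorem exists_tower (C : Finset ι) (p0 : Pt S r) (hoff : p0.Off C) :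
    ∃ p : ℕ → Pt S r, p 0 = p0 ∧ (∀ k, (p k).Off C) ∧ (∀ k, (p (k + 1)).ψ.ker ≤ (p k).ψ.ker) ∧
      (∀ C', C' ⊆ C → ∀ k, p0.rnk lam hlam C' ≤ (p k).rnk lam hlam C') ∧
      ∀ k B, B ⊆ C → (p k).rnk lam hlam (C \ B) = (p k).rnk lam hlam C →
        WordStep B (p k).ψ.ker (p (k + 1)).ψ.ker := by
  classical
  have hne : Nonempty (Pt S r) := ⟨p0⟩
  choose! nx h1 h2 h3 h4 using fun p hp => step (r := r) lam hlam hlinj p C hp
  let p : ℕ → Pt S r := fun k => nx^[k] p0
  have hNs : ∀ k, p (k + 1) = nx (p k) := fun k => Function.iterate_succ_apply' nx k p0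
  have hof : ∀ k, (p k).Off C := by
    intro k
    induction k with
    | zero => exact hoff
    | succ k ih => rw [hNs]; exact h1 _ ih
  refine ⟨p, rfl, hof, fun k => ?_, ?_, ?_⟩
  · rw [hNs]; exact h2 _ (hof k)
  · intro C' hC' k
    induction k with
    | zero => exact le_rfl
    | succ k ih => rw [hNs]; exact ih.trans (h3 _ (hof k) C' hC')
  · intro k B hB hrk
    rw [hNs]
    obtain ⟨h5, h6⟩ := h4 _ (hof k) B hB hrk
    exact ⟨h5, h6⟩

theorem Words.mono {B B' : Finset ι} {N N' : Subgroup (CoprodI S)} (h : Words B N) (hB : B' ⊆ B)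
    (hN : N' ≤ N) : Words B' N' :=
  fun L h1 h2 h3 h4 h5 => h L h1 h2 (fun z hz => hB (h3 z hz)) h4 (hN h5)

/-- the trivial point -/
noncomputable def triv (S : ι → Type) [∀ i, Group (S i)] (r : Fin m → CoprodI S) : Pt S r where
  G := PUnit
  iG := inferInstance
  iO := inferInstance
  iL := ⟨fun _ _ _ _ => le_of_eq (Subsingleton.elim _ _)⟩
  iR := ⟨fun _ _ _ _ => le_of_eq (Subsingleton.elim _ _)⟩
  am := amen_unique _
  ψ := 1
  kills := fun _ => rfl
  st := fun _ => Or.inr fun _ => rfl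

theorem exists_max (C : Finset ι) :
    ∃ p : Pt S r, p.Off C ∧ ∀ p' : Pt S r, p'.Off C → p'.rnk lam hlam C ≤ p.rnk lam hlam C := by
  classical
  let X : Set ℕ := {v | ∃ p : Pt S r, p.Off C ∧ p.rnk lam hlam C = v}
  have hX : X.Nonempty := ⟨_, triv S r, fun _ _ _ => rfl, rfl⟩
  have hb : BddAbove X := ⟨m, by
    rintro _ ⟨p, _, rfl⟩
    exact rk_le _ _⟩
  obtain ⟨p, hp, he⟩ := Nat.sSup_mem hX hb
  refine ⟨p, hp, fun p' hp' => ?_⟩
  rw [he]
  exact le_csSup hb ⟨p', hp', rfl⟩

include hlam hlinj in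
/-- The selection theorem. The factors `S t` are grouped in blocks by `κ`. -/
theorem select {n : ℕ} (κ : ι → Fin n) :
    ∃ (N : Subgroup (CoprodI S)) (J I : Finset (Fin n)), N.Normal ∧ (∀ j, r j ∈ N) ∧ I ⊆ J ∧
      I.card = n - m ∧ (∀ t, κ t ∉ J → ∀ s : S t, CoprodI.of s ∈ N) ∧
      (∀ i ∈ J, Words (Finset.univ.filter fun t => κ t = i) N) ∧
      Words (Finset.univ.filter fun t => κ t ∈ I) N := by
  classical
  let CC : Finset (Fin n) → Finset ι := fun J => Finset.univ.filter fun t => κ t ∈ J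
  have hCC : ∀ J t, t ∈ CC J ↔ κ t ∈ J := fun J t => by simp [CC]
  choose P hP1 hP2 using fun J => exists_max (r := r) lam hlam (CC J)
  let ρ : Finset (Fin n) → ℕ := fun J => (P J).rnk lam hlam (CC J)
  have hρ : ∀ J, ρ J ≤ m := fun J => rk_le _ _
  obtain ⟨J, _, hJ⟩ := Finset.exists_max_image (Finset.univ : Finset (Finset (Fin n)))
    (fun J => ((n : ℤ) + 1) * ((J.card : ℤ) - ρ J) - J.card) ⟨∅, Finset.mem_univ _⟩
  -- the number of factors left
  have hα : (n : ℤ) - m ≤ (J.card : ℤ) - ρ J := by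
    have h1 := hJ Finset.univ (Finset.mem_univ _)
    have h2 : (ρ Finset.univ : ℤ) ≤ m := by exact_mod_cast hρ _
    have h3 : (0 : ℤ) ≤ (J.card : ℤ) := by positivity
    rw [Finset.card_univ, Fintype.card_fin] at h1
    by_contra hcon
    push Not at hcon
    have h4 : (J.card : ℤ) - ρ J - ((n : ℤ) - ρ Finset.univ) ≤ -1 := by omega
    have h5 : (0 : ℤ) ≤ (n : ℤ) + 1 := by positivity
    nlinarith
  have hβ : ∀ i ∈ J, ρ J ≤ ρ (J.erase i) := by
    intro i hi
    have h1 := hJ (J.erase i) (Finset.mem_univ _)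
    have h2 : ((J.erase i).card : ℤ) = (J.card : ℤ) - 1 := by
      rw [Finset.card_erase_of_mem hi]
      have := Finset.card_pos.mpr ⟨i, hi⟩
      push_cast [Nat.cast_sub this]
      rfl
    rw [h2] at h1
    by_contra hcon
    push Not at hcon
    have h4 : (ρ (J.erase i) : ℤ) + 1 ≤ ρ J := by exact_mod_cast hcon
    have h5 : (0 : ℤ) ≤ (n : ℤ) + 1 := by positivity
    nlinarith
  -- the towers which make a single factor injective
  have hsing : ∀ i : Fin n, ∃ N : Subgroup (CoprodI S), i ∈ J → N.Normal ∧ (∀ j, r j ∈ N) ∧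
      (∀ t, κ t ∉ J → ∀ s : S t, CoprodI.of s ∈ N) ∧
      Words (Finset.univ.filter fun t => κ t = i) N := by
    intro i
    by_cases hi : i ∈ J
    · have hoff0 : (P (J.erase i)).Off (CC J) := by
        intro t ht
        apply hP1 (J.erase i) t
        rw [hCC] at ht ⊢
        exact fun h => ht (Finset.mem_of_mem_erase h)
      obtain ⟨p, hp0, hp1, hp2, hp3, hp4⟩ := exists_tower lam hlam hlinj (CC J)
        (P (J.erase i)) hoff0
      have hsub : (Finset.univ.filter fun t => κ t = i) ⊆ CC J := by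
        intro t ht
        rw [Finset.mem_filter] at ht
        rw [hCC, ht.2]; exact hi
      have hdiff : CC J \ (Finset.univ.filter fun t => κ t = i) = CC (J.erase i) := by
        ext t
        rw [Finset.mem_sdiff, hCC, hCC, Finset.mem_filter, Finset.mem_erase]
        simp only [Finset.mem_univ, true_and]
        tauto
      have hrk : ∀ k, (p k).rnk lam hlam (CC J \ (Finset.univ.filter fun t => κ t = i)) =
          (p k).rnk lam hlam (CC J) := by
        intro k
        apply le_antisymm (rk_mono _ Finset.sdiff_subset)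
        rw [hdiff]
        calc (p k).rnk lam hlam (CC J) ≤ ρ J := hP2 J (p k) (hp1 k)
          _ ≤ ρ (J.erase i) := hβ i hi
          _ ≤ (p k).rnk lam hlam (CC (J.erase i)) :=
            hp3 _ (by
              intro t ht
              rw [hCC] at ht ⊢
              exact Finset.mem_of_mem_erase ht) k
      refine ⟨⨅ k, (p k).ψ.ker, fun _ => ⟨Subgroup.normal_iInf_normal fun k => inferInstance,
        ?_, ?_, ?_⟩⟩
      · intro j
        rw [Subgroup.mem_iInf]
        intro k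
        exact (p k).kills j
      · intro t ht s
        rw [Subgroup.mem_iInf]
        intro k
        exact hp1 k t (by rw [hCC]; exact ht) s
      · exact words_of_steps _ _ (fun k => inferInstance) hp2
          (fun K => ⟨K, le_rfl, hp4 K _ hsub (hrk K)⟩)
    · exact ⟨⊤, fun h => absurd h hi⟩
  choose Nf hNf using hsing
  -- the tower which makes many factors free
  obtain ⟨p, hp0, hp1, hp2, hp3, hp4⟩ := exists_tower lam hlam hlinj (CC J) (P J) (hP1 J)
  have hIk : ∀ k, ∃ I : Finset (Fin n), I ⊆ J ∧ J.card - ρ J ≤ I.card ∧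
      WordStep (CC I) (p k).ψ.ker (p (k + 1)).ψ.ker := by
    intro k
    obtain ⟨Q, hQ1, hQ2, hQ3⟩ := rk_cols ((p k).row lam hlam) (CC J)
    refine ⟨J \ Q.image κ, Finset.sdiff_subset, ?_, hp4 k _ ?_ ?_⟩
    · have h1 := Finset.le_card_sdiff (Q.image κ) J
      have h2 : (Q.image κ).card ≤ Q.card := Finset.card_image_le
      have h3 : rk ((p k).row lam hlam) (CC J) ≤ ρ J := hP2 J (p k) (hp1 k)
      omega
    · intro t ht
      rw [hCC] at ht ⊢
      exact (Finset.mem_sdiff.mp ht).1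
    · apply le_antisymm (rk_mono _ Finset.sdiff_subset)
      have h1 : Q ⊆ CC J \ CC (J \ Q.image κ) := by
        intro t ht
        rw [Finset.mem_sdiff, hCC (J \ Q.image κ), Finset.mem_sdiff]
        refine ⟨hQ1 ht, ?_⟩
        rintro ⟨_, h2⟩
        exact h2 (Finset.mem_image_of_mem κ ht)
      calc (p k).rnk lam hlam (CC J) = rk ((p k).row lam hlam) Q := hQ3.symm
        _ ≤ _ := rk_mono _ h1
  choose Ik hIk1 hIk2 hIk3 using hIk
  obtain ⟨I', hI'⟩ := Finite.exists_infinite_fiber Ik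
  have hinf : ∀ K : ℕ, ∃ k, K ≤ k ∧ Ik k = I' := by
    intro K
    have hinf : Set.Infinite (Ik ⁻¹' {I'}) := Set.infinite_coe_iff.mp hI'
    obtain ⟨k, hk, hlt⟩ := hinf.exists_gt K
    exact ⟨k, hlt.le, hk⟩
  have hI'J : I' ⊆ J ∧ J.card - ρ J ≤ I'.card := by
    obtain ⟨k, _, hk⟩ := hinf 0
    rw [← hk]
    exact ⟨hIk1 k, hIk2 k⟩
  have hw : Words (CC I') (⨅ k, (p k).ψ.ker) := by
    refine words_of_steps _ _ (fun k => inferInstance) hp2 (fun K => ?_)
    obtain ⟨k, hk1, hk2⟩ := hinf K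
    exact ⟨k, hk1, hk2 ▸ hIk3 k⟩
  obtain ⟨I, hII', hIc⟩ := Finset.exists_subset_card_eq (s := I') (n := n - m) (by
    have := hI'J.2
    omega)
  refine ⟨(⨅ i : J, Nf i) ⊓ (⨅ k, (p k).ψ.ker), J, I, ?_, ?_, hII'.trans hI'J.1, hIc, ?_, ?_, ?_⟩
  · have h1 : (⨅ i : J, Nf i).Normal := Subgroup.normal_iInf_normal fun i => (hNf i i.2).1
    have h2 : (⨅ k, (p k).ψ.ker).Normal := Subgroup.normal_iInf_normal fun k => inferInstance
    exact Subgroup.normal_inf_normal _ _
  · intro j
    rw [Subgroup.mem_inf, Subgroup.mem_iInf, Subgroup.mem_iInf]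
    exact ⟨fun i => (hNf i i.2).2.1 j, fun k => (p k).kills j⟩
  · intro t ht s
    rw [Subgroup.mem_inf, Subgroup.mem_iInf, Subgroup.mem_iInf]
    exact ⟨fun i => (hNf i i.2).2.2.1 t ht s, fun k => hp1 k t (by rw [hCC]; exact ht) s⟩
  · intro i hi
    exact (hNf i hi).2.2.2.mono (Finset.Subset.refl _) (inf_le_left.trans (iInf_le _ (⟨i, hi⟩ : J)))
  · exact hw.mono (fun t ht => (hCC I' t).mpr (hII' (Finset.mem_filter.mp ht).2)) inf_le_right

end Pool.Agent.Run7.h621.T2
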