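import Pool.Agent.Run7.h621.T2.Pt

/-!
# The tower
-/

set_option autoImplicit false
set_option linter.unusedSectionVars false

namespace Pool.Agent.Run7.h621.T2

open Monoid

/-- The word property of one step. -/
def WordStep {ι : Type} {S : ι → Type} [∀ i, Group (S i)] (B : Finset ι)
    (N N' : Subgroup (CoprodI S)) : Prop :=
  (∀ t ∈ B, ∀ s : S t, CoprodI.of s ∈ N' → s = 1) ∧
    (∀ (x : Σ i, S i) (L : List (Σ i, S i)) (y : Σ i, S i), y.1 ≠ x.1 →
      (∀ z ∈ x :: (L ++ [y]), z.1 ∈ B) → (∀ z ∈ x :: L, CoprodI.of z.2 ∉ N) →
      (∀ L' L'' : List (Σ i, S i), L = L' ++ L'' → pr (x :: L') ∉ N) →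
      pr (x :: (L ++ [y])) ∉ N')

/-- All nonempty reduced words in the letters of `B` are outside of `N`. -/
def Words {ι : Type} {S : ι → Type} [∀ i, Group (S i)] (B : Finset ι)
    (N : Subgroup (CoprodI S)) : Prop :=
  ∀ L : List (Σ i, S i), L ≠ [] → (∀ z ∈ L, z.2 ≠ 1) → (∀ z ∈ L, z.1 ∈ B) →
    L.IsChain (fun a b => a.1 ≠ b.1) → pr L ∉ N

theorem words_of_steps {ι : Type} {S : ι → Type} [∀ i, Group (S i)]
    (J : Finset ι) (N : ℕ → Subgroup (CoprodI S)) (hnormal : ∀ k, (N k).Normal)
    (hdec : ∀ k, N (k + 1) ≤ N k) (hJ' : ∀ K : ℕ, ∃ k, K ≤ k ∧ WordStep J (N k) (N (k + 1))) :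
    Words J (⨅ k, N k) := by
  classical
  have hanti : ∀ k l, k ≤ l → N l ≤ N k := by
    intro k l hkl
    induction hkl with
    | refl => exact le_rfl
    | step _ ih => exact (hdec _).trans ih
  have hnorm : (⨅ k, N k).Normal := Subgroup.normal_iInf_normal hnormal
  -- eventually outside
  have hev : ∀ x : CoprodI S, x ∉ (⨅ k, N k) → ∃ K, ∀ k, K ≤ k → x ∉ N k := by
    intro x hx
    rw [Subgroup.mem_iInf] at hx
    push Not at hx
    obtain ⟨K, hK⟩ := hx
    exact ⟨K, fun k hk h => hK (hanti K k hk h)⟩
  have hevs : ∀ X : List (CoprodI S), (∀ x ∈ X, x ∉ (⨅ k, N k)) →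
      ∃ K, ∀ k, K ≤ k → ∀ x ∈ X, x ∉ N k := by
    intro X
    induction X with
    | nil => intro _; exact ⟨0, by simp⟩
    | cons x X ih =>
      intro h
      obtain ⟨K1, h1⟩ := hev x (h x List.mem_cons_self)
      obtain ⟨K2, h2⟩ := ih (fun y hy => h y (List.mem_cons_of_mem _ hy))
      refine ⟨max K1 K2, fun k hk y hy => ?_⟩
      rcases List.mem_cons.mp hy with hy | hy
      · rw [hy]; exact h1 k ((le_max_left _ _).trans hk)
      · exact h2 k ((le_max_right _ _).trans hk) y hy
  suffices H : ∀ l : ℕ, ∀ L : List (Σ i, S i), L.length = l → L ≠ [] → (∀ z ∈ L, z.2 ≠ 1) →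
      (∀ z ∈ L, z.1 ∈ J) → L.IsChain (fun a b => a.1 ≠ b.1) → pr L ∉ (⨅ k, N k) by
    intro L
    exact H L.length L rfl
  intro l
  induction l using Nat.strong_induction_on with
  | _ l ih =>
    intro L hl hne hone hmem hch
    cases L with
    | nil => exact absurd rfl hne
    | cons x L0 =>
      induction L0 using List.reverseRecOn with
      | nil =>
        -- one letter
        rw [pr_cons, pr_nil, mul_one]
        intro hx
        rw [Subgroup.mem_iInf] at hx
        obtain ⟨k, _, hk⟩ := hJ' 0
        have hx' := hx (k + 1)
        exact hone x List.mem_cons_self (hk.1 x.1 (hmem x List.mem_cons_self) x.2 hx')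
      | append_singleton L y _ =>
        have hlen : l = L.length + 2 := by
          rw [← hl]; simp
        by_cases hxy : y.1 = x.1
        · -- conjugation
          obtain ⟨ix, a⟩ := x
          obtain ⟨iy, b⟩ := y
          simp only at hxy
          subst hxy
          have hLne : L ≠ [] := by
            rintro rfl
            rw [List.nil_append] at hch
            simp at hch
          intro hu
          have hu2 : (CoprodI.of a)⁻¹ * pr (⟨iy, a⟩ :: (L ++ [⟨iy, b⟩])) * CoprodI.of a ∈
              (⨅ k, N k) := by
            have := hnorm.conj_mem _ hu (CoprodI.of a)⁻¹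
            simpa using this
          have e1 : (CoprodI.of a)⁻¹ * pr (⟨iy, a⟩ :: (L ++ [⟨iy, b⟩])) * CoprodI.of a =
              pr L * CoprodI.of (b * a) := by
            rw [pr_cons, pr_append, pr_cons, pr_nil, map_mul]
            simp only [mul_one]
            group
          rw [e1] at hu2
          have hchL : L.IsChain (fun a b => a.1 ≠ b.1) := by
            have := hch.tail
            simp only [List.tail_cons] at this
            exact this.left_of_append
          by_cases hba : b * a = 1
          · rw [hba, map_one, mul_one] at hu2
            exact ih L.length (by omega) L rfl hLne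
              (fun z hz => hone z (List.mem_cons_of_mem _ (List.mem_append_left _ hz)))
              (fun z hz => hmem z (List.mem_cons_of_mem _ (List.mem_append_left _ hz))) hchL hu2
          · have e2 : pr L * CoprodI.of (b * a) = pr (L ++ [⟨iy, b * a⟩]) := by
              rw [pr_append, pr_cons, pr_nil, mul_one]
            rw [e2] at hu2
            refine ih (L.length + 1) (by omega) (L ++ [⟨iy, b * a⟩]) (by simp) (by simp) ?_ ?_ ?_
              hu2
            · intro z hz
              rcases List.mem_append.mp hz with hz | hz
              · exact hone z (List.mem_cons_of_mem _ (List.mem_append_left _ hz))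
              · rw [List.mem_singleton] at hz
                rw [hz]; exact hba
            · intro z hz
              rcases List.mem_append.mp hz with hz | hz
              · exact hmem z (List.mem_cons_of_mem _ (List.mem_append_left _ hz))
              · rw [List.mem_singleton] at hz
                rw [hz]
                exact hmem ⟨iy, b⟩ (by simp)
            · have h3 : (L ++ [(⟨iy, b⟩ : Σ i, S i)]).IsChain (fun a b => a.1 ≠ b.1) := by
                have := hch.tail
                simpa only [List.tail_cons] using this
              rw [List.isChain_append] at h3 ⊢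
              refine ⟨h3.1, by simp, ?_⟩
              intro z hz w hw
              have := h3.2.2 z hz ⟨iy, b⟩ (by simp)
              simp only [List.head?_cons, Option.mem_def, Option.some.injEq] at hw
              rw [← hw]
              exact this
        · -- cyclically reduced
          have hini : ∀ L' L'' : List (Σ i, S i), L = L' ++ L'' →
              pr (x :: L') ∉ (⨅ k, N k) := by
            intro L' L'' h
            have hch' : (x :: L').IsChain (fun a b => a.1 ≠ b.1) := by
              have : x :: (L ++ [y]) = (x :: L') ++ (L'' ++ [y]) := by rw [h]; simp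
              rw [this] at hch
              exact hch.left_of_append
            refine ih (L'.length + 1) ?_ (x :: L') (by simp) (by simp) ?_ ?_ hch'
            · have : L.length = L'.length + L''.length := by rw [h]; simp
              omega
            · intro z hz
              apply hone z
              rcases List.mem_cons.mp hz with hz | hz
              · rw [hz]; exact List.mem_cons_self
              · exact List.mem_cons_of_mem _ (List.mem_append_left _ (by
                  rw [h]; exact List.mem_append_left _ hz))
            · intro z hz
              apply hmem z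
              rcases List.mem_cons.mp hz with hz | hz
              · rw [hz]; exact List.mem_cons_self
              · exact List.mem_cons_of_mem _ (List.mem_append_left _ (by
                  rw [h]; exact List.mem_append_left _ hz))
          have hlet : ∀ z ∈ x :: L, CoprodI.of z.2 ∉ (⨅ k, N k) := by
            intro z hz
            have hz' : z ∈ x :: (L ++ [y]) := by
              rcases List.mem_cons.mp hz with hz | hz
              · rw [hz]; exact List.mem_cons_self
              · exact List.mem_cons_of_mem _ (List.mem_append_left _ hz)
            have := ih 1 (by omega) [z] rfl (by simp)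
              (fun w hw => by rw [List.mem_singleton] at hw; rw [hw]; exact hone z hz')
              (fun w hw => by rw [List.mem_singleton] at hw; rw [hw]; exact hmem z hz')
              (by simp)
            simpa using this
          obtain ⟨K1, hK1⟩ := hevs (L.inits.map fun L' => pr (x :: L')) (by
            intro u hu
            obtain ⟨L', hL', rfl⟩ := List.mem_map.mp hu
            rw [List.mem_inits] at hL'
            obtain ⟨L'', hL''⟩ := hL'
            exact hini L' L'' hL''.symm)
          obtain ⟨K2, hK2⟩ := hevs ((x :: L).map fun z => CoprodI.of z.2) (by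
            intro u hu
            obtain ⟨z, hz, rfl⟩ := List.mem_map.mp hu
            exact hlet z hz)
          obtain ⟨k, hk1, hk2⟩ := hJ' (max K1 K2)
          have key := hk2.2 x L y hxy hmem
            (fun z hz => hK2 k ((le_max_right _ _).trans hk1) _ (List.mem_map.mpr ⟨z, hz, rfl⟩))
            (fun L' L'' h => hK1 k ((le_max_left _ _).trans hk1) _
              (List.mem_map.mpr ⟨L', (List.mem_inits _ _).mpr ⟨L'', h.symm⟩, rfl⟩))
          intro hu
          rw [Subgroup.mem_iInf] at hu
          have := hu (k + 1)
          exact key this


end Pool.Agent.Run7.h621.T2
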